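import Pool.Agent.TH925.BR.Defs
import Pool.Agent.H618R2.Skew.Model

/-!
# The matrix attached to a staircase matrix
-/

namespace Pool.Agent.TH925.BR

open Finset Pool.Agent.H549R2.Convex Pool.Agent.H618R2.Skew

/-- number of the ones `(i, j)` of `A` with `2 i ≤ P < 2 j` -/
def upC (A : List (List Bool)) (P : ℕ) : ℕ :=
  ∑ i ∈ range A.length, ∑ j ∈ range A.length,
    if 2 * i ≤ P ∧ P < 2 * j ∧ ent A i j = true then 1 else 0

/-- number of the ones `(i, j)` of `A` with `2 j ≤ P < 2 i` -/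
def dnC (A : List (List Bool)) (P : ℕ) : ℕ :=
  ∑ i ∈ range A.length, ∑ j ∈ range A.length,
    if 2 * j ≤ P ∧ P < 2 * i ∧ ent A i j = true then 1 else 0

/-- the off-diagonal block counts -/
def DM (A : List (List Bool)) (P Q : ℕ) : ℕ :=
  if P = Q then 0
  else if P % 2 = 0 ∧ Q % 2 = 0 then (if ent A (P / 2) (Q / 2) = true then 1 else 0)
  else if Q = P + 1 then dnC A P
  else if P = Q + 1 then upC A Q
  else 0

end Pool.Agent.TH925.BR
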