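import Pool.Agent.TH925.BR.Defs

set_option autoImplicit false

/-!
# Rank functions are determined at the block corners
-/

namespace Pool.Agent.TH925.BR

open Finset

theorem JB_rk_succ {N : ℕ} (v : Equiv.Perm (Fin N)) (p q : ℕ) :
    rk v (p + 1) q = rk v p q +
      (univ.filter fun k : Fin N => k.val = p ∧ q ≤ (v k).val).card := by
  unfold rk
  rw [← Finset.card_union_of_disjoint]
  · congr 1
    ext k
    simp only [mem_filter, mem_univ, true_and, mem_union]
    omega
  · rw [Finset.disjoint_left]
    intro k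
    simp only [mem_filter, mem_univ, true_and]
    omega

theorem JB_rk_col {N : ℕ} (v : Equiv.Perm (Fin N)) (p q : ℕ) :
    rk v p q = rk v p (q + 1) +
      (univ.filter fun k : Fin N => k.val < p ∧ (v k).val = q).card := by
  unfold rk
  rw [← Finset.card_union_of_disjoint]
  · congr 1
    ext k
    simp only [mem_filter, mem_univ, true_and, mem_union]
    omega
  · rw [Finset.disjoint_left]
    intro k
    simp only [mem_filter, mem_univ, true_and]
    omega

/-- comparison of the number of entries in one position -/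
theorem JB_row_le {N : ℕ} (v w : Equiv.Perm (Fin N)) (p q : ℕ)
    (h : ∀ k : Fin N, k.val = p → q ≤ (w k).val) :
    (univ.filter fun k : Fin N => k.val = p ∧ q ≤ (v k).val).card ≤
      (univ.filter fun k : Fin N => k.val = p ∧ q ≤ (w k).val).card := by
  apply Finset.card_le_card
  intro k
  simp only [mem_filter, mem_univ, true_and]
  rintro ⟨h1, _⟩
  exact ⟨h1, h k h1⟩

/-- comparison of the number of entries with one value -/
theorem JB_col_le {N : ℕ} (v w : Equiv.Perm (Fin N)) (p q : ℕ)
    (h : ∀ u : Fin N, u.val = q → (w.symm u).val < p) :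
    (univ.filter fun k : Fin N => k.val < p ∧ (v k).val = q).card ≤
      (univ.filter fun k : Fin N => k.val < p ∧ (w k).val = q).card := by
  refine Finset.card_le_card_of_injOn (fun k => w.symm (v k)) ?_ ?_
  · intro k hk
    simp only [coe_filter, mem_univ, true_and, Set.mem_ofPred_eq] at hk ⊢
    exact ⟨h _ hk.2, by simpa using hk.2⟩
  · intro a _ b _ hab
    exact v.injective (w.symm.injective hab)

theorem JB_mono_p {N : ℕ} (v : Equiv.Perm (Fin N)) {x p : ℕ} (q : ℕ) (hx : x ≤ p) :
    rk v x q ≤ rk v p q := by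
  apply Finset.card_le_card
  intro k
  simp only [mem_filter, mem_univ, true_and]
  rintro ⟨h1, h2⟩
  exact ⟨by omega, h2⟩

theorem JB_mono_q {N : ℕ} (v : Equiv.Perm (Fin N)) (p : ℕ) {q y : ℕ} (hx : q ≤ y) :
    rk v p y ≤ rk v p q := by
  apply Finset.card_le_card
  intro k
  simp only [mem_filter, mem_univ, true_and]
  rintro ⟨h1, h2⟩
  exact ⟨h1, by omega⟩

theorem JB_P1 {N : ℕ} (v w : Equiv.Perm (Fin N)) (q x : ℕ) (h0 : rk v x q ≤ rk w x q) (p : ℕ)
    (hx : x ≤ p) (h : ∀ k : Fin N, x ≤ k.val → k.val < p → q ≤ (w k).val) :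
    rk v p q ≤ rk w p q := by
  induction p, hx using Nat.le_induction with
  | base => exact h0
  | succ p hp ih =>
    rw [JB_rk_succ, JB_rk_succ]
    exact Nat.add_le_add (ih (fun k h1 h2 => h k h1 (by omega)))
      (JB_row_le v w p q (fun k hk => h k (by omega) (by omega)))

theorem JB_P3 {N : ℕ} (w : Equiv.Perm (Fin N)) (q p x : ℕ) (hx : p ≤ x)
    (h : ∀ k : Fin N, p ≤ k.val → k.val < x → (w k).val < q) :
    rk w x q = rk w p q := by
  unfold rk
  congr 1
  ext k
  simp only [mem_filter, mem_univ, true_and]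
  constructor
  · rintro ⟨h1, h2⟩
    refine ⟨?_, h2⟩
    by_contra h3
    have := h k (by omega) h1
    omega
  · rintro ⟨h1, h2⟩
    exact ⟨by omega, h2⟩

theorem JB_Q1 {N : ℕ} (v w : Equiv.Perm (Fin N)) (p y : ℕ) (h0 : rk v p y ≤ rk w p y) (q : ℕ)
    (hx : q ≤ y) (h : ∀ u : Fin N, q ≤ u.val → u.val < y → (w.symm u).val < p) :
    rk v p q ≤ rk w p q := by
  induction hn : y - q generalizing q with
  | zero =>
    have : q = y := by omega
    rw [this]; exact h0
  | succ n ih =>
    rw [JB_rk_col v, JB_rk_col w]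
    exact Nat.add_le_add (ih (q + 1) (by omega) (fun u h1 h2 => h u (by omega) h2) (by omega))
      (JB_col_le v w p q (fun u hu => h u (by omega) (by omega)))

theorem JB_Q3 {N : ℕ} (w : Equiv.Perm (Fin N)) (p x q : ℕ) (hx : x ≤ q)
    (h : ∀ u : Fin N, x ≤ u.val → u.val < q → p ≤ (w.symm u).val) :
    rk w p x = rk w p q := by
  unfold rk
  congr 1
  ext k
  simp only [mem_filter, mem_univ, true_and]
  constructor
  · rintro ⟨h1, h2⟩
    refine ⟨h1, ?_⟩
    by_contra h3
    have := h (w k) h2 (by omega)
    rw [Equiv.symm_apply_apply] at this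
    omega
  · rintro ⟨h1, h2⟩
    exact ⟨h1, by omega⟩

theorem corner {N m : ℕ} (β : Fin N → Fin m) (X : ℕ → ℕ)
    (hX : ∀ (k : Fin N) (i : ℕ), k.val < X i ↔ (β k).val < i) (hXN : X m = N)
    (v w : Equiv.Perm (Fin N))
    (ha : ∀ k k' : Fin N, k < k' → β k = β k' → w k' < w k)
    (hb : ∀ k k' : Fin N, k < k' → β (w k) = β (w k') → w k' < w k)
    (h : ∀ i j : ℕ, i ≤ m → j ≤ m → rk v (X i) (X j) ≤ rk w (X i) (X j)) (p q : ℕ) :
    rk v p q ≤ rk w p q := by
  have hblock : ∀ (k : Fin N) (i : ℕ), X i ≤ k.val → k.val < X (i + 1) → (β k).val = i := by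
    intro k i h1 h2
    have h3 := (hX k (i + 1)).1 h2
    have h4 : ¬ (β k).val < i := fun h5 => by
      have := (hX k i).2 h5
      omega
    omega
  have step1 : ∀ j ≤ m, ∀ p, rk v p (X j) ≤ rk w p (X j) := by
    intro j hj p
    rcases le_or_gt N p with hp | hp
    · have e1 : ∀ u : Equiv.Perm (Fin N), rk u p (X j) = rk u (X m) (X j) := by
        intro u
        rw [hXN]
        apply JB_P3 u (X j) N p hp
        intro k hk
        have := k.isLt
        omega
      rw [e1, e1]
      exact h m j (le_refl _) hj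
    · obtain ⟨i, hi⟩ : ∃ i, i = (β ⟨p, hp⟩).val := ⟨_, rfl⟩
      have him : i < m := by rw [hi]; exact (β ⟨p, hp⟩).isLt
      have h1 : X i ≤ p := by
        by_contra hcon
        have := (hX ⟨p, hp⟩ i).1 (by simpa using hcon)
        omega
      have h2 : p < X (i + 1) := by
        have := (hX ⟨p, hp⟩ (i + 1)).2 (by omega)
        simpa using this
      by_cases hc : ∃ k : Fin N, X i ≤ k.val ∧ k.val < p ∧ (w k).val < X j
      · obtain ⟨k, hk1, hk2, hk3⟩ := hc
        have e1 : rk w (X (i + 1)) (X j) = rk w p (X j) := by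
          apply JB_P3 w (X j) p _ h2.le
          intro k' hk'1 hk'2
          have hkk : k < k' := by
            rw [Fin.lt_def]; omega
          have hβ : β k = β k' := by
            apply Fin.ext
            rw [hblock k i hk1 (by omega), hblock k' i (by omega) hk'2]
          have := ha k k' hkk hβ
          rw [Fin.lt_def] at this
          omega
        rw [← e1]
        exact (JB_mono_p v (X j) h2.le).trans (h (i + 1) j (by omega) hj)
      · push Not at hc
        exact JB_P1 v w (X j) (X i) (h i j (by omega) hj) p h1 (fun k hk1 hk2 => hc k hk1 hk2)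
  rcases le_or_gt N q with hq | hq
  · have e1 : rk v p q = 0 := by
      unfold rk
      rw [Finset.card_eq_zero, Finset.filter_eq_empty_iff]
      intro k _
      have := (v k).isLt
      omega
    omega
  · obtain ⟨j, hj⟩ : ∃ j, j = (β ⟨q, hq⟩).val := ⟨_, rfl⟩
    have hjm : j < m := by rw [hj]; exact (β ⟨q, hq⟩).isLt
    have h1 : X j ≤ q := by
      by_contra hcon
      have := (hX ⟨q, hq⟩ j).1 (by simpa using hcon)
      omega
    have h2 : q < X (j + 1) := by
      have := (hX ⟨q, hq⟩ (j + 1)).2 (by omega)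
      simpa using this
    by_cases hc : ∃ u : Fin N, q ≤ u.val ∧ u.val < X (j + 1) ∧ p ≤ (w.symm u).val
    · obtain ⟨u, hu1, hu2, hu3⟩ := hc
      have e1 : rk w p (X j) = rk w p q := by
        apply JB_Q3 w p _ q h1
        intro u' hu'1 hu'2
        by_contra hcon
        have hlt : w.symm u' < w.symm u := by
          rw [Fin.lt_def]; omega
        have hβ : β (w (w.symm u')) = β (w (w.symm u)) := by
          rw [Equiv.apply_symm_apply, Equiv.apply_symm_apply]
          apply Fin.ext
          rw [hblock u' j hu'1 (by omega), hblock u j (by omega) hu2]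
        have := hb _ _ hlt hβ
        rw [Equiv.apply_symm_apply, Equiv.apply_symm_apply, Fin.lt_def] at this
        omega
      rw [← e1]
      exact (JB_mono_q v p h1).trans (step1 j (by omega) p)
    · push Not at hc
      exact JB_Q1 v w p (X (j + 1)) (step1 (j + 1) (by omega) p) q h2.le
        (fun u hu1 hu2 => hc u hu1 hu2)

end Pool.Agent.TH925.BR
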