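import Pool.Agent.TH925.BR.Defs

/-!
# Permutations and words
-/

namespace Pool.Agent.TH925.BR

open Finset

theorem JC_fiber {S ι : Type} [Fintype S] [Fintype ι] (β c : S → ι)
    (h : ∀ q, Nat.card {s : S // c s = q} = Nat.card {s : S // β s = q}) :
    Nat.card {v : Equiv.Perm S // (fun s => β (v s)) = c} =
      ∏ q : ι, (Nat.card {s : S // β s = q}).factorial := by
  classical
  have hc : ∀ q, Nonempty ({s : S // c s = q} ≃ {s : S // β s = q}) := by
    intro q
    have := h q
    rw [Nat.card_eq_fintype_card, Nat.card_eq_fintype_card] at this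
    exact ⟨Fintype.equivOfCardEq this⟩
  let e : ∀ q, {s : S // c s = q} ≃ {s : S // β s = q} := fun q => (hc q).some
  obtain ⟨v0, hv0⟩ : ∃ v0 : Equiv.Perm S, ∀ s, β (v0 s) = c s :=
    ⟨Equiv.ofFiberEquiv e, Equiv.ofFiberEquiv_map e⟩
  have h1 : Nat.card {v : Equiv.Perm S // (fun s => β (v s)) = c} =
      Nat.card {g : Equiv.Perm S // β ∘ g = β} := by
    refine Nat.card_congr
      { toFun := fun v => ⟨v.1 * v0⁻¹, ?_⟩
        invFun := fun g => ⟨g.1 * v0, ?_⟩
        left_inv := fun v => ?_
        right_inv := fun g => ?_ }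
    · funext s
      have h2 : β (v.1 (v0⁻¹ s)) = c (v0⁻¹ s) := congrFun v.2 (v0⁻¹ s)
      rw [Function.comp_apply, Equiv.Perm.mul_apply, h2, ← hv0]
      simp
    · funext s
      have h2 := congrFun g.2 (v0 s)
      rw [Function.comp_apply] at h2
      rw [Equiv.Perm.mul_apply, h2, hv0]
    · apply Subtype.ext
      simp
    · apply Subtype.ext
      simp
  rw [h1, Nat.card_eq_fintype_card, DomMulAct.stabilizer_card]
  exact Finset.prod_congr rfl fun q _ => by rw [Nat.card_eq_fintype_card]

theorem card_perm_words {S ι : Type} [Fintype S] [Fintype ι] (β : S → ι) (C : (S → ι) → Prop) :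
    Nat.card {v : Equiv.Perm S // C (fun s => β (v s))} =
      (∏ q : ι, (Nat.card {s : S // β s = q}).factorial) *
        Nat.card {c : S → ι // (∀ q, Nat.card {s : S // c s = q} = Nat.card {s : S // β s = q}) ∧
          C c} := by
  classical
  let W := {c : S → ι // (∀ q, Nat.card {s : S // c s = q} = Nat.card {s : S // β s = q}) ∧ C c}
  have hfib : ∀ (v : Equiv.Perm S) (q : ι),
      Nat.card {s : S // (fun s => β (v s)) s = q} = Nat.card {s : S // β s = q} := by
    intro v q
    exact Nat.card_congr (Equiv.subtypeEquiv v fun s => Iff.rfl)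
  have e : {v : Equiv.Perm S // C (fun s => β (v s))} ≃
      Σ c : W, {v : Equiv.Perm S // (fun s => β (v s)) = c.1} :=
    { toFun := fun v => ⟨⟨fun s => β (v.1 s), hfib v.1, v.2⟩, ⟨v.1, rfl⟩⟩
      invFun := fun p => ⟨p.2.1, by rw [p.2.2]; exact p.1.2.2⟩
      left_inv := fun v => rfl
      right_inv := by
        rintro ⟨⟨c, hc⟩, ⟨v, hv⟩⟩
        cases hv
        rfl }
  rw [Nat.card_congr e, Nat.card_sigma]
  have h2 : ∀ c : W, Nat.card {v : Equiv.Perm S // (fun s => β (v s)) = c.1} =
      ∏ q : ι, (Nat.card {s : S // β s = q}).factorial := fun c => JC_fiber β c.1 c.2.1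
  simp only [h2]
  rw [Finset.sum_const, Finset.card_univ, smul_eq_mul, mul_comm, ← Nat.card_eq_fintype_card]

end Pool.Agent.TH925.BR
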