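import Pool.Agent.TH925.BR.Defs

/-!
# The longest permutation with a given block matrix
-/

namespace Pool.Agent.TH925.BR

open Finset

/-- the triples with row block `P` -/
def JF_B (m : ℕ) (M : ℕ → ℕ → ℕ) (P : ℕ) : List (ℕ × ℕ × ℕ) :=
  (List.range m).flatMap fun R => (List.range (M P (m - 1 - R))).map fun c => (P, m - 1 - R, c)

/-- the list of all triples with row block `< n` -/
def JF_T (m : ℕ) (M : ℕ → ℕ → ℕ) (n : ℕ) : List (ℕ × ℕ × ℕ) :=
  (List.range n).flatMap fun P => JF_B m M P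

/-- the value of a triple -/
def JF_v (M : ℕ → ℕ → ℕ) (X : ℕ → ℕ) (t : ℕ × ℕ × ℕ) : ℕ :=
  X (t.2.1 + 1) - 1 - (∑ P' ∈ range t.1, M P' t.2.1) - t.2.2

/-- the order of the triples in the list -/
def JF_r (t t' : ℕ × ℕ × ℕ) : Prop :=
  t.1 < t'.1 ∨ (t.1 = t'.1 ∧ (t'.2.1 < t.2.1 ∨ (t.2.1 = t'.2.1 ∧ t.2.2 < t'.2.2)))

theorem JF_wl (m : ℕ) (M : ℕ → ℕ → ℕ) (X : ℕ → ℕ) :
    wl m M X = (JF_T m M m).map (JF_v M X) := by
  simp only [wl, JF_T, JF_B, List.map_flatMap, List.map_map]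
  rfl

theorem JF_memB (m : ℕ) (M : ℕ → ℕ → ℕ) (P : ℕ) (t : ℕ × ℕ × ℕ) :
    t ∈ JF_B m M P ↔ t.1 = P ∧ t.2.1 < m ∧ t.2.2 < M P t.2.1 := by
  obtain ⟨a, b, c⟩ := t
  simp only [JF_B, List.mem_flatMap, List.mem_range, List.mem_map, Prod.mk.injEq]
  constructor
  · rintro ⟨R, hR, c', hc', rfl, rfl, rfl⟩
    exact ⟨rfl, by omega, hc'⟩
  · rintro ⟨rfl, hb, hc⟩
    refine ⟨m - 1 - b, by omega, c, ?_, rfl, by omega, rfl⟩
    have e : m - 1 - (m - 1 - b) = b := by omega
    rw [e]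
    exact hc

theorem JF_mem (m : ℕ) (M : ℕ → ℕ → ℕ) (n : ℕ) (t : ℕ × ℕ × ℕ) :
    t ∈ JF_T m M n ↔ t.1 < n ∧ t.2.1 < m ∧ t.2.2 < M t.1 t.2.1 := by
  simp only [JF_T, List.mem_flatMap, List.mem_range, JF_memB]
  constructor
  · rintro ⟨P, hP, h1, h2, h3⟩
    rw [h1]
    exact ⟨hP, h2, h3⟩
  · rintro ⟨h1, h2, h3⟩
    exact ⟨t.1, h1, rfl, h2, h3⟩

theorem JF_pwB (m : ℕ) (M : ℕ → ℕ → ℕ) (P : ℕ) : (JF_B m M P).Pairwise JF_r := by
  rw [JF_B, List.pairwise_flatMap]
  constructor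
  · intro R _
    rw [List.pairwise_map]
    exact List.pairwise_lt_range.imp (fun h => Or.inr ⟨rfl, Or.inr ⟨rfl, h⟩⟩)
  · refine List.Pairwise.imp_of_mem ?_ List.pairwise_lt_range
    intro R R' hR hR' h x hx y hy
    rw [List.mem_map] at hx hy
    obtain ⟨c, _, rfl⟩ := hx
    obtain ⟨c', _, rfl⟩ := hy
    rw [List.mem_range] at hR hR'
    refine Or.inr ⟨rfl, Or.inl ?_⟩
    simp only
    omega

theorem JF_pw (m : ℕ) (M : ℕ → ℕ → ℕ) (n : ℕ) : (JF_T m M n).Pairwise JF_r := by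
  rw [JF_T, List.pairwise_flatMap]
  refine ⟨fun P _ => JF_pwB m M P, ?_⟩
  refine List.Pairwise.imp ?_ List.pairwise_lt_range
  intro P P' h x hx y hy
  rw [JF_memB] at hx hy
  left
  rw [hx.1, hy.1]
  exact h

theorem JF_sum (f : ℕ → ℕ) (n : ℕ) : ((List.range n).map f).sum = ∑ i ∈ range n, f i := by
  induction n with
  | zero => simp
  | succ n ih =>
    rw [List.range_succ, List.map_append, List.sum_append, ih, Finset.sum_range_succ]
    simp

theorem JF_lenB (m : ℕ) (M : ℕ → ℕ → ℕ) (P : ℕ) :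
    (JF_B m M P).length = ∑ Q ∈ range m, M P Q := by
  rw [JF_B, List.length_flatMap]
  simp only [List.length_map, List.length_range]
  rw [JF_sum]
  exact Finset.sum_range_reflect (fun Q => M P Q) m

theorem JF_Tsucc (m : ℕ) (M : ℕ → ℕ → ℕ) (n : ℕ) :
    JF_T m M (n + 1) = JF_T m M n ++ JF_B m M n := by
  simp [JF_T, List.range_succ]

theorem JF_len (m : ℕ) (M : ℕ → ℕ → ℕ) (X : ℕ → ℕ) (h0 : X 0 = 0)
    (hr : ∀ P < m, X (P + 1) = X P + ∑ Q ∈ range m, M P Q) :
    ∀ n ≤ m, (JF_T m M n).length = X n := by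
  intro n
  induction n with
  | zero => intro _; simp [JF_T, h0]
  | succ n ih =>
    intro hn
    rw [JF_Tsucc, List.length_append, ih (by omega), JF_lenB, hr n (by omega)]

theorem JF_prefix (m : ℕ) (M : ℕ → ℕ → ℕ) (n : ℕ) :
    ∀ d, JF_T m M n <+: JF_T m M (n + d) := by
  intro d
  induction d with
  | zero => exact List.prefix_rfl
  | succ d ih =>
    rw [show n + (d + 1) = (n + d) + 1 from rfl, JF_Tsucc]
    exact ih.trans (List.prefix_append _ _)

/-- the row tag of an entry -/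
theorem JF_tag (m : ℕ) (M : ℕ → ℕ → ℕ) (X : ℕ → ℕ) (h0 : X 0 = 0)
    (hr : ∀ P < m, X (P + 1) = X P + ∑ Q ∈ range m, M P Q) (k : ℕ)
    (hk : k < (JF_T m M m).length) (P : ℕ) (hP : P < m) (h1 : X P ≤ k) (h2 : k < X (P + 1)) :
    ((JF_T m M m)[k]).1 = P := by
  have hpre := JF_prefix m M (P + 1) (m - (P + 1))
  rw [show P + 1 + (m - (P + 1)) = m by omega] at hpre
  have hl1 := JF_len m M X h0 hr (P + 1) (by omega)
  have hl2 := JF_len m M X h0 hr P (by omega)
  have hk1 : k < (JF_T m M (P + 1)).length := by omega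
  have e : (JF_T m M m)[k] = (JF_T m M (P + 1))[k] := (hpre.getElem hk1).symm
  have hmem : (JF_T m M (P + 1))[k] ∈ JF_B m M P := by
    have h3 : k < (JF_T m M P ++ JF_B m M P).length := by rw [← JF_Tsucc]; exact hk1
    have e2 : (JF_T m M (P + 1))[k] = (JF_T m M P ++ JF_B m M P)[k] := by
      simp only [JF_Tsucc]
    rw [e2, List.getElem_append_right (by omega)]
    exact List.getElem_mem _
  rw [e]
  exact ((JF_memB m M P _).1 hmem).1

theorem JF_mono (m : ℕ) (M : ℕ → ℕ → ℕ) (X : ℕ → ℕ)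
    (hr : ∀ P < m, X (P + 1) = X P + ∑ Q ∈ range m, M P Q) :
    ∀ j ≤ m, ∀ i ≤ j, X i ≤ X j := by
  intro j
  induction j with
  | zero => intro _ i hi; rw [Nat.le_zero.1 hi]
  | succ j ih =>
    intro hj i hi
    rcases Nat.lt_or_ge i (j + 1) with h | h
    · have h1 := ih (by omega) i (by omega)
      have h2 := hr j (by omega)
      omega
    · rw [show i = j + 1 by omega]

/-- every position lies in a block -/
theorem JF_block (m : ℕ) (X : ℕ → ℕ) (h0 : X 0 = 0) (k : ℕ) (hk : k < X m) :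
    ∃ P < m, X P ≤ k ∧ k < X (P + 1) := by
  induction m with
  | zero => omega
  | succ m ih =>
    rcases Nat.lt_or_ge k (X m) with h | h
    · obtain ⟨P, hP, h1, h2⟩ := ih h
      exact ⟨P, by omega, h1, h2⟩
    · exact ⟨m, by omega, h, hk⟩

theorem JF_uniq (m : ℕ) (M : ℕ → ℕ → ℕ) (X : ℕ → ℕ)
    (hr : ∀ P < m, X (P + 1) = X P + ∑ Q ∈ range m, M P Q) (k P Q : ℕ) (hP : P < m) (hQ : Q < m)
    (h1 : X P ≤ k) (h2 : k < X (P + 1)) (h3 : X Q ≤ k) (h4 : k < X (Q + 1)) : P = Q := by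
  rcases Nat.lt_trichotomy P Q with h | h | h
  · have := JF_mono m M X hr Q (by omega) (P + 1) (by omega)
    omega
  · exact h
  · have := JF_mono m M X hr P (by omega) (Q + 1) (by omega)
    omega

/-- the partial column sums -/
theorem JF_col (M : ℕ → ℕ → ℕ) (P P' Q : ℕ) (h : P < P') :
    (∑ R ∈ range P, M R Q) + M P Q ≤ ∑ R ∈ range P', M R Q := by
  rw [← Finset.sum_range_succ (fun R => M R Q)]
  exact Finset.sum_le_sum_of_subset (Finset.range_subset_range.2 (by omega))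

theorem JF_val (m : ℕ) (M : ℕ → ℕ → ℕ) (X : ℕ → ℕ)
    (hc : ∀ Q < m, X (Q + 1) = X Q + ∑ P ∈ range m, M P Q) (t : ℕ × ℕ × ℕ)
    (ht : t ∈ JF_T m M m) : X t.2.1 ≤ JF_v M X t ∧ JF_v M X t < X (t.2.1 + 1) ∧
      JF_v M X t + 1 + (∑ P' ∈ range t.1, M P' t.2.1) + t.2.2 = X (t.2.1 + 1) := by
  rw [JF_mem] at ht
  have h1 := JF_col M t.1 m t.2.1 ht.1
  have h2 := hc t.2.1 ht.2.1
  rw [JF_v]
  omega

theorem JF_lt (m : ℕ) (M : ℕ → ℕ → ℕ) (X : ℕ → ℕ)
    (hr : ∀ P < m, X (P + 1) = X P + ∑ Q ∈ range m, M P Q)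
    (hc : ∀ Q < m, X (Q + 1) = X Q + ∑ P ∈ range m, M P Q) (t t' : ℕ × ℕ × ℕ)
    (ht : t ∈ JF_T m M m) (ht' : t' ∈ JF_T m M m) (h : JF_r t t')
    (h' : t.1 = t'.1 ∨ t.2.1 = t'.2.1) : JF_v M X t' < JF_v M X t := by
  have a := JF_val m M X hc t ht
  have b := JF_val m M X hc t' ht'
  rw [JF_mem] at ht ht'
  obtain ⟨P, Q, c⟩ := t
  obtain ⟨P', Q', c'⟩ := t'
  simp only [JF_r] at *
  rcases Nat.lt_trichotomy Q Q' with hQ | hQ | hQ
  · omega
  · subst hQ
    rcases h with h | ⟨h, h2⟩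
    · have := JF_col M P P' Q h
      omega
    · subst h
      omega
  · have := JF_mono m M X hr Q (by omega) (Q' + 1) (by omega)
    omega

theorem JF_ne (m : ℕ) (M : ℕ → ℕ → ℕ) (X : ℕ → ℕ)
    (hr : ∀ P < m, X (P + 1) = X P + ∑ Q ∈ range m, M P Q)
    (hc : ∀ Q < m, X (Q + 1) = X Q + ∑ P ∈ range m, M P Q) (t t' : ℕ × ℕ × ℕ)
    (ht : t ∈ JF_T m M m) (ht' : t' ∈ JF_T m M m) (h : JF_r t t') :
    JF_v M X t ≠ JF_v M X t' := by
  by_cases h' : t.2.1 = t'.2.1
  · exact (JF_lt m M X hr hc t t' ht ht' h (Or.inr h')).ne'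
  · have a := JF_val m M X hc t ht
    have b := JF_val m M X hc t' ht'
    intro he
    rw [JF_mem] at ht ht'
    apply h'
    exact JF_uniq m M X hr (JF_v M X t) _ _ ht.2.1 ht'.2.1 a.1 a.2.1 (he ▸ b.1) (he ▸ b.2.1)

theorem wl_spec (m : ℕ) (M : ℕ → ℕ → ℕ) (X : ℕ → ℕ) (h0 : X 0 = 0)
    (hr : ∀ P < m, X (P + 1) = X P + ∑ Q ∈ range m, M P Q)
    (hc : ∀ Q < m, X (Q + 1) = X Q + ∑ P ∈ range m, M P Q) :
    ∃ w : Equiv.Perm (Fin (X m)), wl m M X = List.ofFn (fun k => (w k).val) ∧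
      (∀ k k' : Fin (X m), k < k' → ∀ P < m, X P ≤ k.val → k'.val < X (P + 1) → w k' < w k) ∧
      (∀ k k' : Fin (X m), k < k' → ∀ Q < m, X Q ≤ (w k).val → (w k).val < X (Q + 1) →
        X Q ≤ (w k').val → (w k').val < X (Q + 1) → w k' < w k) ∧
      (∀ P < m, ∀ Q < m, (univ.filter fun k : Fin (X m) => X P ≤ k.val ∧ k.val < X (P + 1) ∧
        X Q ≤ (w k).val ∧ (w k).val < X (Q + 1)).card = M P Q) := by
  have hlen : (JF_T m M m).length = X m := JF_len m M X h0 hr m le_rfl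
  have hlt : ∀ k : Fin (X m), k.val < (JF_T m M m).length := fun k => by rw [hlen]; exact k.2
  -- the triple of a position
  set T : Fin (X m) → ℕ × ℕ × ℕ := fun k => (JF_T m M m)[k.val]'(hlt k) with hT
  have hTm : ∀ k, T k ∈ JF_T m M m := fun k => List.getElem_mem _
  have hTr : ∀ k k' : Fin (X m), k < k' → JF_r (T k) (T k') := fun k k' h =>
    List.pairwise_iff_getElem.1 (JF_pw m M m) k.val k'.val (hlt k) (hlt k') h
  have hmonX : ∀ i ≤ m, X i ≤ X m := fun i hi => JF_mono m M X hr m le_rfl i hi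
  have hv : ∀ k, JF_v M X (T k) < X m := fun k => by
    have h1 := (JF_val m M X hc _ (hTm k)).2.1
    have h2 := (JF_mem m M m _).1 (hTm k)
    have h3 := hmonX ((T k).2.1 + 1) (by omega)
    omega
  have hinj : Function.Injective (fun k : Fin (X m) => (⟨JF_v M X (T k), hv k⟩ : Fin (X m))) := by
    intro k k' h
    have h' : JF_v M X (T k) = JF_v M X (T k') := congrArg Fin.val h
    rcases lt_trichotomy k k' with h1 | h1 | h1
    · exact absurd h' (JF_ne m M X hr hc _ _ (hTm k) (hTm k') (hTr k k' h1))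
    · exact h1
    · exact absurd h'.symm (JF_ne m M X hr hc _ _ (hTm k') (hTm k) (hTr k' k h1))
  have hbij : Function.Bijective (fun k : Fin (X m) => (⟨JF_v M X (T k), hv k⟩ : Fin (X m))) :=
    Finite.injective_iff_bijective.1 hinj
  have hrow : ∀ k P, P < m → X P ≤ k.val → k.val < X (P + 1) → (T k).1 = P :=
    fun k P hP h1 h2 => JF_tag m M X h0 hr k.val (hlt k) P hP h1 h2
  have hcol : ∀ k Q, Q < m → X Q ≤ JF_v M X (T k) → JF_v M X (T k) < X (Q + 1) →
      (T k).2.1 = Q := fun k Q hQ h1 h2 => by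
    have a := JF_val m M X hc _ (hTm k)
    have b := (JF_mem m M m _).1 (hTm k)
    exact JF_uniq m M X hr _ _ _ b.2.1 hQ a.1 a.2.1 h1 h2
  refine ⟨Equiv.ofBijective _ hbij, ?_, ?_, ?_, ?_⟩
  · rw [JF_wl]
    apply List.ext_getElem
    · rw [List.length_map, List.length_ofFn, hlen]
    · intro i h1 h2
      rw [List.getElem_map, List.getElem_ofFn]
      rfl
  · intro k k' hkk P hP h1 h2
    have e1 := hrow k P hP h1 (by have := Fin.lt_def.1 hkk; omega)
    have e2 := hrow k' P hP (by have := Fin.lt_def.1 hkk; omega) h2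
    exact JF_lt m M X hr hc _ _ (hTm k) (hTm k') (hTr k k' hkk) (Or.inl (e1.trans e2.symm))
  · intro k k' hkk Q hQ h1 h2 h3 h4
    have e1 := hcol k Q hQ h1 h2
    have e2 := hcol k' Q hQ h3 h4
    exact JF_lt m M X hr hc _ _ (hTm k) (hTm k') (hTr k k' hkk) (Or.inr (e1.trans e2.symm))
  · intro P hP Q hQ
    have key : (univ.filter fun k : Fin (X m) => X P ≤ k.val ∧ k.val < X (P + 1) ∧
        X Q ≤ (Equiv.ofBijective _ hbij k).val ∧ (Equiv.ofBijective _ hbij k).val < X (Q + 1)).card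
        = (range (M P Q)).card := by
      refine Finset.card_bij (fun k _ => (T k).2.2) ?_ ?_ ?_
      · intro k hk
        rw [mem_filter] at hk
        obtain ⟨_, h1, h2, h3, h4⟩ := hk
        have e1 := hrow k P hP h1 h2
        have e2 := hcol k Q hQ h3 h4
        have b := (JF_mem m M m _).1 (hTm k)
        rw [e1, e2] at b
        rw [mem_range]
        exact b.2.2
      · intro k hk k' hk' he
        rw [mem_filter] at hk hk'
        obtain ⟨_, h1, h2, h3, h4⟩ := hk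
        obtain ⟨_, h1', h2', h3', h4'⟩ := hk'
        have e1 := hrow k P hP h1 h2
        have e2 := hcol k Q hQ h3 h4
        have e1' := hrow k' P hP h1' h2'
        have e2' := hcol k' Q hQ h3' h4'
        have e : T k = T k' := Prod.ext (e1.trans e1'.symm)
          (Prod.ext (e2.trans e2'.symm) he)
        apply hinj
        apply Fin.ext
        simp only [e]
      · intro c hc'
        rw [mem_range] at hc'
        have hmem : (P, Q, c) ∈ JF_T m M m := (JF_mem m M m _).2 ⟨hP, hQ, hc'⟩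
        obtain ⟨i, hi, hie⟩ := List.mem_iff_getElem.1 hmem
        have hi' : i < X m := by rw [← hlen]; exact hi
        have hTi : T ⟨i, hi'⟩ = (P, Q, c) := hie
        have a := JF_val m M X hc _ (hTm ⟨i, hi'⟩)
        refine ⟨⟨i, hi'⟩, ?_, ?_⟩
        · rw [mem_filter]
          obtain ⟨P', hP', h1, h2⟩ := JF_block m X h0 i hi'
          have e1 := hrow ⟨i, hi'⟩ P' hP' h1 h2
          rw [hTi] at e1
          have e1' : P = P' := e1
          subst e1'
          refine ⟨mem_univ _, h1, h2, ?_, ?_⟩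
          · have := a.1
            rw [hTi] at this
            show X Q ≤ JF_v M X (T ⟨i, hi'⟩)
            rw [hTi]
            exact this
          · have := a.2.1
            rw [hTi] at this
            show JF_v M X (T ⟨i, hi'⟩) < X (Q + 1)
            rw [hTi]
            exact this
        · rw [hTi]
    rw [key, card_range]

end Pool.Agent.TH925.BR
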