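import Pool.Agent.TH925.BR.JA
import Pool.Agent.TH925.BR.JB
import Pool.Agent.TH925.BR.JC
import Pool.Agent.TH925.BR.JF

/-!
# The Bruhat order below a block-decreasing permutation is a condition on block counts
-/

namespace Pool.Agent.TH925.BR

open Finset

theorem off_eq {N m : ℕ} (β : Fin N → Fin m) (v : Fin N → Fin m) (p q : Fin m) (h : p ≠ q) :
    off β v p q = ∑ k : Fin N, if β k = p ∧ v k = q then 1 else 0 := by
  classical
  rw [off, if_neg h, Nat.card_eq_fintype_card, Fintype.card_subtype, card_filter]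

/-- the sum of the off-diagonal counts in the upper right -/
theorem ne_off {N m : ℕ} (β c : Fin N → Fin m) (i j : ℕ) (hij : i ≤ j) :
    ne (off β c) i j = ∑ k : Fin N, if (β k).val < i ∧ j ≤ (c k).val then 1 else 0 := by
  classical
  rw [ne]
  have h1 : ∀ p q : Fin m, (if p.val < i ∧ j ≤ q.val then off β c p q else 0) =
      ∑ k : Fin N, if β k = p ∧ c k = q then
        (if (β k).val < i ∧ j ≤ (c k).val then 1 else 0) else 0 := by
    intro p q
    by_cases hc : p.val < i ∧ j ≤ q.val
    · rw [if_pos hc, off_eq β c p q (fun h => by rw [h] at hc; omega)]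
      refine sum_congr rfl fun k _ => ?_
      by_cases hk : β k = p ∧ c k = q
      · rw [if_pos hk, if_pos hk, if_pos (by rw [hk.1, hk.2]; exact hc)]
      · rw [if_neg hk, if_neg hk]
    · rw [if_neg hc, sum_eq_zero]
      intro k _
      by_cases hk : β k = p ∧ c k = q
      · rw [if_pos hk, if_neg (by rw [hk.1, hk.2]; exact hc)]
      · rw [if_neg hk]
  rw [sum_congr rfl fun p _ => sum_congr rfl fun q _ => h1 p q]
  rw [sum_congr rfl fun p _ => sum_comm, sum_comm]
  refine sum_congr rfl fun k _ => ?_
  rw [sum_eq_single (β k), sum_eq_single (c k), if_pos ⟨rfl, rfl⟩]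
  · intro q _ hq
    rw [if_neg (fun h => hq h.2.symm)]
  · intro h; exact absurd (mem_univ _) h
  · intro p _ hp
    refine sum_eq_zero fun q _ => ?_
    rw [if_neg (fun h => hp h.1.symm)]
  · intro h; exact absurd (mem_univ _) h

/-- the sum of the off-diagonal counts in the lower left -/
theorem sw_off {N m : ℕ} (β c : Fin N → Fin m) (i j : ℕ) (hji : j ≤ i) :
    sw (off β c) i j = ∑ k : Fin N, if i ≤ (β k).val ∧ (c k).val < j then 1 else 0 := by
  classical
  rw [sw]
  have h1 : ∀ p q : Fin m, (if i ≤ p.val ∧ q.val < j then off β c p q else 0) =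
      ∑ k : Fin N, if β k = p ∧ c k = q then
        (if i ≤ (β k).val ∧ (c k).val < j then 1 else 0) else 0 := by
    intro p q
    by_cases hc : i ≤ p.val ∧ q.val < j
    · rw [if_pos hc, off_eq β c p q (fun h => by rw [h] at hc; omega)]
      refine sum_congr rfl fun k _ => ?_
      by_cases hk : β k = p ∧ c k = q
      · rw [if_pos hk, if_pos hk, if_pos (by rw [hk.1, hk.2]; exact hc)]
      · rw [if_neg hk, if_neg hk]
    · rw [if_neg hc, sum_eq_zero]
      intro k _
      by_cases hk : β k = p ∧ c k = q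
      · rw [if_pos hk, if_neg (by rw [hk.1, hk.2]; exact hc)]
      · rw [if_neg hk]
  rw [sum_congr rfl fun p _ => sum_congr rfl fun q _ => h1 p q]
  rw [sum_congr rfl fun p _ => sum_comm, sum_comm]
  refine sum_congr rfl fun k _ => ?_
  rw [sum_eq_single (β k), sum_eq_single (c k), if_pos ⟨rfl, rfl⟩]
  · intro q _ hq
    rw [if_neg (fun h => hq h.2.symm)]
  · intro h; exact absurd (mem_univ _) h
  · intro p _ hp
    refine sum_eq_zero fun q _ => ?_
    rw [if_neg (fun h => hp h.1.symm)]
  · intro h; exact absurd (mem_univ _) h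

section Fixed

variable {N m : ℕ} (β : Fin N → Fin m) (X : ℕ → ℕ)

theorem rk_ne (hX : ∀ (k : Fin N) (i : ℕ), k.val < X i ↔ (β k).val < i)
    (v : Equiv.Perm (Fin N)) (i j : ℕ) (hij : i ≤ j) :
    rk v (X i) (X j) = ne (off β fun s => β (v s)) i j := by
  rw [ne_off β _ i j hij, rk, card_filter]
  refine sum_congr rfl fun k _ => ?_
  have h1 := hX k i
  have h2 := hX (v k) j
  have h3 : (k.val < X i ∧ X j ≤ (v k).val) ↔ ((β k).val < i ∧ j ≤ (β (v k)).val) := by
    rw [h1, ← not_lt, h2, not_lt]
  by_cases h : k.val < X i ∧ X j ≤ (v k).val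
  · rw [if_pos h, if_pos (h3.1 h)]
  · rw [if_neg h, if_neg (fun h' => h (h3.2 h'))]

theorem sum_lt (a : ℕ) (ha : a ≤ N) : (∑ k : Fin N, if k.val < a then 1 else 0) = a := by
  rw [← card_filter, Fin.card_filter_val_lt, Nat.min_eq_right ha]

theorem rk_sw (hX : ∀ (k : Fin N) (i : ℕ), k.val < X i ↔ (β k).val < i)
    (v : Equiv.Perm (Fin N)) (i j : ℕ) (hji : j ≤ i) (hi : X i ≤ N) (hj : X j ≤ N) :
    rk v (X i) (X j) + X j = X i + sw (off β fun s => β (v s)) i j := by
  rw [sw_off β _ i j hji, rk, card_filter]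
  have e1 := sum_lt (N := N) (X i) hi
  have e2 : (∑ k : Fin N, if (v k).val < X j then 1 else 0) = X j :=
    (Equiv.sum_comp v (fun k : Fin N => if k.val < X j then 1 else 0)).trans
      (sum_lt (N := N) (X j) hj)
  have key : (∑ k : Fin N, if k.val < X i ∧ X j ≤ (v k).val then 1 else 0) +
      (∑ k : Fin N, if (v k).val < X j then 1 else 0) =
      (∑ k : Fin N, if k.val < X i then 1 else 0) +
      (∑ k : Fin N, if i ≤ (β k).val ∧ (β (v k)).val < j then 1 else 0) := by
    rw [← sum_add_distrib, ← sum_add_distrib]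
    refine sum_congr rfl fun k _ => ?_
    have h1 := hX k i
    have h2 := hX (v k) j
    by_cases ha : k.val < X i <;> by_cases hb : (v k).val < X j
    · have h1' := h1.1 ha
      rw [if_neg (by omega), if_pos hb, if_pos ha, if_neg (by omega)]
    · have h1' := h1.1 ha
      rw [if_pos (by omega), if_neg hb, if_pos ha, if_neg (by omega)]
    · have h1' : ¬ (β k).val < i := fun h => ha (h1.2 h)
      have h2' := h2.1 hb
      rw [if_neg (by omega), if_pos hb, if_neg ha, if_pos (by omega)]
    · have h2' : ¬ (β (v k)).val < j := fun h => hb (h2.2 h)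
      rw [if_neg (by omega), if_neg hb, if_neg ha, if_neg (by omega)]
  omega

theorem ne_zero_of_le {E : Fin m → Fin m → ℕ} {i j : ℕ} (h : m ≤ j) : ne E i j = 0 := by
  rw [ne]
  refine sum_eq_zero fun p _ => sum_eq_zero fun q _ => ?_
  rw [if_neg (by have := q.2; omega)]

theorem sw_zero_of_le {E : Fin m → Fin m → ℕ} {i j : ℕ} (h : m ≤ i) : sw E i j = 0 := by
  rw [sw]
  refine sum_eq_zero fun p _ => sum_eq_zero fun q _ => ?_
  rw [if_neg (by have := p.2; omega)]

/-- **The Bruhat order below a permutation which decreases on all row and column blocks.** -/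
theorem core (hX : ∀ (k : Fin N) (i : ℕ), k.val < X i ↔ (β k).val < i) (hXN : X m = N)
    (hXle : ∀ i ≤ m, X i ≤ N) (v w : Equiv.Perm (Fin N))
    (ha : ∀ k k' : Fin N, k < k' → β k = β k' → w k' < w k)
    (hb : ∀ k k' : Fin N, k < k' → β (w k) = β (w k') → w k' < w k) :
    Bruhat v w ↔ Dom (off β fun s => β (w s)) (off β fun s => β (v s)) := by
  rw [bruhat_iff]
  constructor
  · intro h i j
    constructor
    · intro hij
      by_cases hj : m ≤ j
      · rw [ne_zero_of_le hj, ne_zero_of_le hj]
      · rw [← rk_ne β X hX v i j hij, ← rk_ne β X hX w i j hij]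
        exact h _ _
    · intro hji
      by_cases hi : m ≤ i
      · rw [sw_zero_of_le hi, sw_zero_of_le hi]
      · have h1 := rk_sw β X hX v i j hji (hXle i (by omega)) (hXle j (by omega))
        have h2 := rk_sw β X hX w i j hji (hXle i (by omega)) (hXle j (by omega))
        have h3 := h (X i) (X j)
        omega
  · intro h
    refine corner β X hX hXN v w ha hb fun i j hi hj => ?_
    rcases le_total i j with hij | hji
    · rw [rk_ne β X hX v i j hij, rk_ne β X hX w i j hij]
      exact (h i j).1 hij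
    · have h1 := rk_sw β X hX v i j hji (hXle i hi) (hXle j hj)
      have h2 := rk_sw β X hX w i j hji (hXle i hi) (hXle j hj)
      have h3 := (h i j).2 hji
      omega

end Fixed

/-- the block map -/
theorem exists_beta {m : ℕ} (X : ℕ → ℕ) (h0 : X 0 = 0) (hm : Monotone X) :
    ∃ β : Fin (X m) → Fin m, ∀ (k : Fin (X m)) (i : ℕ), k.val < X i ↔ (β k).val < i := by
  classical
  have h1 : ∀ k : Fin (X m), ∃ b : Fin m, ∀ i : ℕ, k.val < X i ↔ b.val < i := by
    intro k
    have hex : ∃ i, k.val < X i := ⟨m, k.2⟩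
    have hpos : Nat.find hex ≠ 0 := by
      intro h
      have := Nat.find_spec hex
      rw [h, h0] at this
      omega
    have hle : Nat.find hex ≤ m := Nat.find_min' hex k.2
    refine ⟨⟨Nat.find hex - 1, by omega⟩, fun i => ?_⟩
    simp only
    constructor
    · intro h
      have := Nat.find_min' hex h
      omega
    · intro h
      exact lt_of_lt_of_le (Nat.find_spec hex) (hm (by omega))
  choose β hβ using h1
  exact ⟨β, hβ⟩

theorem fiber_card {N m : ℕ} (β : Fin N → Fin m) (X : ℕ → ℕ)
    (hX : ∀ (k : Fin N) (i : ℕ), k.val < X i ↔ (β k).val < i) (hXle : ∀ i ≤ m, X i ≤ N)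
    (p : Fin m) : Nat.card {k : Fin N // β k = p} = X (p.val + 1) - X p.val := by
  classical
  have e1 := sum_lt (N := N) (X (p.val + 1)) (hXle _ p.2)
  have e2 := sum_lt (N := N) (X p.val) (hXle _ p.2.le)
  rw [Nat.card_eq_fintype_card, Fintype.card_subtype, card_filter]
  have e3 : (∑ k : Fin N, if β k = p then 1 else 0) + X p.val = X (p.val + 1) := by
    nth_rw 1 [← e2]
    rw [← e1, ← sum_add_distrib]
    refine sum_congr rfl fun k _ => ?_
    have h1 := hX k (p.val + 1)
    have h2 := hX k p.val
    by_cases hk : β k = p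
    · rw [hk] at h1 h2
      rw [if_pos hk, if_neg (fun h => by have := h2.1 h; omega), if_pos (h1.2 (by omega))]
    · have hk' : (β k).val ≠ p.val := fun h => hk (Fin.ext h)
      by_cases hlt : (β k).val < p.val
      · rw [if_neg hk, if_pos (h2.2 hlt), if_pos (h1.2 (by omega))]
      · rw [if_neg hk, if_neg (fun h => hlt (h2.1 h)), if_neg (fun h => by have := h1.1 h; omega)]
  omega

theorem below_eq {n : ℕ} (l : List ℕ) (w : Equiv.Perm (Fin n))
    (hl : l = List.ofFn (fun k => (w k).val)) :
    below l = Nat.card {v : Equiv.Perm (Fin n) // Bruhat v w} := by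
  have hn : l.length = n := by rw [hl, List.length_ofFn]
  subst hn
  rw [below]
  refine Nat.card_congr (Equiv.subtypeEquivRight fun v => ?_)
  constructor
  · rintro ⟨w', hw', hv⟩
    have h1 : w' = w := by
      have h2 : List.ofFn (fun k => (w' k).val) = List.ofFn (fun k => (w k).val) := by
        rw [← hw', ← hl]
      have h3 := List.ofFn_injective h2
      ext k
      exact congrFun h3 k
    rw [h1] at hv
    exact hv
  · intro hv
    exact ⟨w, hl, hv⟩

/-- **The number of permutations below the longest permutation with a given block matrix.** -/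
theorem below_wl (m : ℕ) (M : ℕ → ℕ → ℕ) (X : ℕ → ℕ) (h0 : X 0 = 0) (hm : Monotone X)
    (hr : ∀ P < m, X (P + 1) = X P + ∑ Q ∈ range m, M P Q)
    (hc : ∀ Q < m, X (Q + 1) = X Q + ∑ P ∈ range m, M P Q) :
    ∃ β : Fin (X m) → Fin m, (∀ p : Fin m, Nat.card {k // β k = p} = X (p.val + 1) - X p.val) ∧
      below (wl m M X) = (∏ q : Fin m, (X (q.val + 1) - X q.val).factorial) *
        Nat.card {c : Fin (X m) → Fin m // (∀ q, Nat.card {s // c s = q} = Nat.card {s // β s = q}) ∧
          Dom (fun P Q : Fin m => if P = Q then 0 else M P.val Q.val) (off β c)} := by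
  classical
  obtain ⟨w, hw, ha, hb, hM⟩ := wl_spec m M X h0 hr hc
  obtain ⟨β, hX⟩ := exists_beta (m := m) X h0 hm
  have hXle : ∀ i ≤ m, X i ≤ X m := fun i hi => hm hi
  have hβ : ∀ (k : Fin (X m)) (P : Fin m), β k = P ↔ X P.val ≤ k.val ∧ k.val < X (P.val + 1) := by
    intro k P
    have h1 := hX k P.val
    have h2 := hX k (P.val + 1)
    constructor
    · intro h
      rw [h] at h1 h2
      exact ⟨by by_contra h3; have := h1.1 (by omega); omega, h2.2 (by omega)⟩
    · rintro ⟨h3, h4⟩
      apply Fin.ext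
      have h5 := h2.1 h4
      have h6 : ¬ (β k).val < P.val := fun h => by have := h1.2 h; omega
      omega
  have ha' : ∀ k k' : Fin (X m), k < k' → β k = β k' → w k' < w k := by
    intro k k' hk h
    exact ha k k' hk (β k).val (β k).2 ((hβ k (β k)).1 rfl).1 ((hβ k' (β k)).1 h.symm).2
  have hb' : ∀ k k' : Fin (X m), k < k' → β (w k) = β (w k') → w k' < w k := by
    intro k k' hk h
    have h1 := (hβ (w k) (β (w k))).1 rfl
    have h2 := (hβ (w k') (β (w k))).1 h.symm
    exact hb k k' hk (β (w k)).val (β (w k)).2 h1.1 h1.2 h2.1 h2.2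
  have hoff : off β (fun s => β (w s)) = fun P Q : Fin m => if P = Q then 0 else M P.val Q.val := by
    funext P Q
    by_cases h : P = Q
    · rw [off, if_pos h, if_pos h]
    · rw [off, if_neg h, if_neg h, Nat.card_eq_fintype_card, Fintype.card_subtype,
        ← hM P.val P.2 Q.val Q.2]
      congr 1
      ext k
      rw [mem_filter, mem_filter, hβ, hβ, and_assoc]
  refine ⟨β, fiber_card β X hX hXle, ?_⟩
  rw [below_eq _ w hw, ← hoff]
  have h1 : Nat.card {v : Equiv.Perm (Fin (X m)) // Bruhat v w} =
      Nat.card {v : Equiv.Perm (Fin (X m)) //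
        (fun c => Dom (off β fun s => β (w s)) (off β c)) (fun s => β (v s))} :=
    Nat.card_congr (Equiv.subtypeEquivRight fun v => core β X hX rfl hXle v w ha' hb')
  rw [h1, card_perm_words β (fun c => Dom (off β fun s => β (w s)) (off β c))]
  congr 1
  exact prod_congr rfl fun q _ => by rw [fiber_card β X hX hXle]

end Pool.Agent.TH925.BR
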