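import Mathlib

/-!
# The Bruhat order on permutations and block counts: definitions
-/

namespace Pool.Agent.TH925.BR

open Finset

/-- One step upwards in the Bruhat order: two entries of the one-line notation that are in
increasing order are exchanged. -/
def Up {n : ℕ} (u v : Equiv.Perm (Fin n)) : Prop :=
  ∃ i j : Fin n, i < j ∧ u i < u j ∧ v = u * Equiv.swap i j

/-- The (strong) Bruhat order on the permutations of `{0, …, n-1}`. -/
def Bruhat {n : ℕ} (u v : Equiv.Perm (Fin n)) : Prop := Relation.ReflTransGen Up u v

/-- number of the positions `k < p` with value at least `q` -/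
def rk {n : ℕ} (v : Equiv.Perm (Fin n)) (p q : ℕ) : ℕ :=
  (univ.filter fun k : Fin n => k.val < p ∧ q ≤ (v k).val).card

/-- For the one-line notation `l` of a permutation `w` of `{0, …, n-1}`: the number of the
permutations `v ≤ w` in the Bruhat order; the value is `0` for all other lists. -/
noncomputable def below (l : List ℕ) : ℕ :=
  Nat.card {v : Equiv.Perm (Fin l.length) //
    ∃ w : Equiv.Perm (Fin l.length), l = List.ofFn (fun k => (w k).val) ∧ Bruhat v w}

/-- off-diagonal block counts of the word `c`: the number of letters `q` in the block `p` -/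
noncomputable def off {S ι : Type} [DecidableEq ι] (β c : S → ι) (p q : ι) : ℕ :=
  if p = q then 0 else Nat.card {s : S // β s = p ∧ c s = q}

/-- sum of the entries in the rows `< i` and columns `≥ j` -/
def ne {m : ℕ} (E : Fin m → Fin m → ℕ) (i j : ℕ) : ℕ :=
  ∑ p : Fin m, ∑ q : Fin m, if p.val < i ∧ j ≤ q.val then E p q else 0

/-- sum of the entries in the rows `≥ i` and columns `< j` -/
def sw {m : ℕ} (E : Fin m → Fin m → ℕ) (i j : ℕ) : ℕ :=
  ∑ p : Fin m, ∑ q : Fin m, if i ≤ p.val ∧ q.val < j then E p q else 0

/-- the matrix `E` is dominated by the matrix `D` -/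
def Dom {m : ℕ} (D E : Fin m → Fin m → ℕ) : Prop :=
  ∀ i j : ℕ, (i ≤ j → ne E i j ≤ ne D i j) ∧ (j ≤ i → sw E i j ≤ sw D i j)

/-- one-line notation of the longest permutation with block matrix `M`; `X P` is the start of the
block `P` -/
def wl (m : ℕ) (M : ℕ → ℕ → ℕ) (X : ℕ → ℕ) : List ℕ :=
  (List.range m).flatMap fun P => (List.range m).flatMap fun R =>
    (List.range (M P (m - 1 - R))).map fun c =>
      X (m - 1 - R + 1) - 1 - (∑ P' ∈ range P, M P' (m - 1 - R)) - c

end Pool.Agent.TH925.BR
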