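import Pool.Agent.TH925.BR.Defs
import Pool.Agent.TH925.BR.JC

/-!
# The number of words with given off-diagonal block counts is polynomial in the block size
-/

namespace Pool.Agent.TH925.BR

open Finset

/-- words with prescribed letter counts -/
theorem JD_words {F ι : Type} [Fintype F] [Fintype ι] (k : ι → ℕ)
    (hk : ∑ q, k q = Fintype.card F) :
    Nat.card {f : F → ι // ∀ q, Nat.card {s : F // f s = q} = k q} * ∏ q, (k q).factorial =
      (Fintype.card F).factorial := by
  classical
  have hcard : Fintype.card F = Fintype.card (Σ q : ι, Fin (k q)) := by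
    rw [Fintype.card_sigma]
    simp [hk]
  let e : F ≃ Σ q : ι, Fin (k q) := Fintype.equivOfCardEq hcard
  let f0 : F → ι := fun s => (e s).1
  have hf0 : ∀ q, Nat.card {s : F // f0 s = q} = k q := by
    intro q
    have e1 : {s : F // f0 s = q} ≃ {x : Σ q : ι, Fin (k q) // x.1 = q} :=
      Equiv.subtypeEquiv e fun s => Iff.rfl
    rw [Nat.card_congr (e1.trans (Equiv.sigmaSubtype q))]
    simp
  have h := card_perm_words f0 (fun _ => True)
  have h1 : Nat.card {v : Equiv.Perm F // (fun _ : F → ι => True) (fun s => f0 (v s))} =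
      (Fintype.card F).factorial := by
    have e1 : {v : Equiv.Perm F // (fun _ : F → ι => True) (fun s => f0 (v s))} ≃ Equiv.Perm F :=
      Equiv.subtypeUnivEquiv fun _ => trivial
    rw [Nat.card_congr e1, Nat.card_eq_fintype_card, Fintype.card_perm]
  rw [h1] at h
  rw [h, mul_comm]
  have h2 : {c : F → ι // (∀ q, Nat.card {s : F // c s = q} = Nat.card {s : F // f0 s = q}) ∧
      (fun _ : F → ι => True) c} ≃
      {f : F → ι // ∀ q, Nat.card {s : F // f s = q} = k q} :=
    Equiv.subtypeEquivRight fun c => by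
      constructor
      · rintro ⟨h, -⟩ q
        rw [h q, hf0 q]
      · intro h
        exact ⟨fun q => by rw [h q, hf0 q], trivial⟩
  rw [Nat.card_congr h2]
  congr 1
  exact Finset.prod_congr rfl fun q _ => by rw [hf0 q]

/-- words on a fibre with prescribed numbers of the letters different from `p` -/
theorem JD_fibre {F ι : Type} [Fintype F] [Fintype ι] (p : ι) (k : ι → ℕ) (hp : k p = 0) :
    Nat.card {f : F → ι // ∀ q, q ≠ p → Nat.card {s : F // f s = q} = k q} *
      ∏ q, (k q).factorial = (Fintype.card F).descFactorial (∑ q, k q) := by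
  classical
  have hsum : ∀ f : F → ι, ∑ q, Nat.card {s : F // f s = q} = Fintype.card F := by
    intro f
    have e : (Σ q : ι, {s : F // f s = q}) ≃ F := Equiv.sigmaFiberEquiv f
    have h := Fintype.card_congr e
    rw [Fintype.card_sigma] at h
    rw [← h]
    exact Finset.sum_congr rfl fun q _ => Nat.card_eq_fintype_card
  by_cases hK : ∑ q, k q ≤ Fintype.card F
  · let k' : ι → ℕ := Function.update k p (Fintype.card F - ∑ q, k q)
    have hk'p : k' p = Fintype.card F - ∑ q, k q := by simp [k']
    have hk'q : ∀ q, q ≠ p → k' q = k q := by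
      intro q hq
      simp [k', Function.update_of_ne hq]
    have hs0 : ∑ q ∈ univ.erase p, k q = ∑ q, k q := by
      rw [← Finset.add_sum_erase univ k (mem_univ p), hp, zero_add]
    have hs1 : ∑ q ∈ univ.erase p, k' q = ∑ q, k q := by
      rw [← hs0]
      exact Finset.sum_congr rfl fun q hq => hk'q q (Finset.ne_of_mem_erase hq)
    have hk's : ∑ q, k' q = Fintype.card F := by
      rw [← Finset.add_sum_erase univ k' (mem_univ p), hs1, hk'p]
      omega
    have h := JD_words (F := F) k' hk's
    have e : {f : F → ι // ∀ q, Nat.card {s : F // f s = q} = k' q} ≃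
        {f : F → ι // ∀ q, q ≠ p → Nat.card {s : F // f s = q} = k q} :=
      Equiv.subtypeEquivRight fun f => by
        constructor
        · intro h q hq
          rw [h q, hk'q q hq]
        · intro h q
          by_cases hq : q = p
          · subst hq
            have h1 := hsum f
            rw [← Finset.add_sum_erase univ _ (mem_univ q)] at h1
            have h2 : ∑ x ∈ univ.erase q, Nat.card {s : F // f s = x} = ∑ x, k x := by
              rw [← hs0]
              exact Finset.sum_congr rfl fun x hx => h x (Finset.ne_of_mem_erase hx)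
            rw [h2] at h1
            rw [hk'p]
            omega
          · rw [h q hq, hk'q q hq]
    rw [Nat.card_congr e] at h
    have hprod : ∏ q, (k' q).factorial =
        (Fintype.card F - ∑ q, k q).factorial * ∏ q, (k q).factorial := by
      rw [← Finset.mul_prod_erase univ (fun q => (k' q).factorial) (mem_univ p),
        ← Finset.mul_prod_erase univ (fun q => (k q).factorial) (mem_univ p), hk'p, hp]
      simp only [Nat.factorial_zero, one_mul]
      congr 1
      exact Finset.prod_congr rfl fun q hq => by rw [hk'q q (Finset.ne_of_mem_erase hq)]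
    rw [hprod] at h
    have h3 := Nat.factorial_mul_descFactorial hK
    have hpos : 0 < (Fintype.card F - ∑ q, k q).factorial := Nat.factorial_pos _
    apply Nat.eq_of_mul_eq_mul_left hpos
    rw [h3, ← h]
    ring
  · have hK' : Fintype.card F < ∑ q, k q := by omega
    rw [Nat.descFactorial_eq_zero_iff_lt.2 hK']
    have he : IsEmpty {f : F → ι // ∀ q, q ≠ p → Nat.card {s : F // f s = q} = k q} := by
      constructor
      rintro ⟨f, hf⟩
      have h1 := hsum f
      have h2 : ∑ q, k q ≤ ∑ q, Nat.card {s : F // f s = q} := by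
        refine Finset.sum_le_sum fun q _ => ?_
        by_cases hq : q = p
        · subst hq; rw [hp]; exact Nat.zero_le _
        · rw [hf q hq]
      omega
    rw [Nat.card_of_isEmpty, zero_mul]

/-- number of the words with given off-diagonal block counts -/
theorem JD_off {S ι : Type} [Fintype S] [Fintype ι] [DecidableEq ι] (β : S → ι)
    (E : ι → ι → ℕ) (hE : ∀ p, E p p = 0) :
    Nat.card {c : S → ι // off β c = E} * ∏ p, ∏ q, (E p q).factorial =
      ∏ p, (Nat.card {s : S // β s = p}).descFactorial (∑ q, E p q) := by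
  classical
  let Q : ∀ p : ι, ({s : S // β s = p} → ι) → Prop := fun p f =>
    ∀ q, q ≠ p → Nat.card {s : {s : S // β s = p} // f s = q} = E p q
  let e0 : (S → ι) ≃ (∀ p : ι, {s : S // β s = p} → ι) :=
    ((Equiv.sigmaFiberEquiv β).arrowCongr (Equiv.refl ι)).symm.trans
      (Equiv.piCurry fun _ _ => ι)
  have he0 : ∀ (c : S → ι) (p : ι) (s : {s : S // β s = p}), e0 c p s = c s.1 := by
    intro c p s
    rfl
  have e1 : {c : S → ι // off β c = E} ≃ {g : ∀ p : ι, {s : S // β s = p} → ι // ∀ p, Q p (g p)} := by
    refine Equiv.subtypeEquiv e0 fun c => ?_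
    have key : ∀ p q : ι, Nat.card {s : {s : S // β s = p} // e0 c p s = q} =
        Nat.card {s : S // β s = p ∧ c s = q} := by
      intro p q
      exact Nat.card_congr (Equiv.subtypeSubtypeEquivSubtypeInter (fun s : S => β s = p)
        (fun s : S => c s = q))
    constructor
    · intro h p q hq
      rw [key p q, ← h]
      unfold off
      rw [if_neg (Ne.symm hq)]
    · intro h
      funext p q
      unfold off
      by_cases hpq : p = q
      · subst hpq
        rw [if_pos rfl, hE]
      · rw [if_neg hpq, ← key p q, h p q (Ne.symm hpq)]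
  have e2 : {g : ∀ p : ι, {s : S // β s = p} → ι // ∀ p, Q p (g p)} ≃
      (∀ p : ι, {f : {s : S // β s = p} → ι // Q p f}) := Equiv.subtypePiEquivPi
  rw [Nat.card_congr (e1.trans e2), Nat.card_pi, ← Finset.prod_mul_distrib]
  refine Finset.prod_congr rfl fun p _ => ?_
  rw [JD_fibre (F := {s : S // β s = p}) p (E p) (hE p), Nat.card_eq_fintype_card]

/-- the two kinds of marginals of the word -/
theorem JD_marg {S ι : Type} [Fintype S] [Fintype ι] [DecidableEq ι] (β c : S → ι) (q : ι) :
    Nat.card {s : S // c s = q} = Nat.card {s : S // β s = q ∧ c s = q} + ∑ p, off β c p q ∧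
    Nat.card {s : S // β s = q} = Nat.card {s : S // β s = q ∧ c s = q} + ∑ p, off β c q p := by
  classical
  have hN : ∀ P : S → Prop, Nat.card {s : S // P s} = (univ.filter P).card := by
    intro P
    rw [Nat.card_eq_fintype_card, Fintype.card_subtype]
  constructor
  · have h1 : Nat.card {s : S // c s = q} = ∑ p, Nat.card {s : S // β s = p ∧ c s = q} := by
      rw [hN, Finset.card_eq_sum_card_fiberwise (f := β) (t := univ)
        (fun _ _ => mem_coe.2 (mem_univ _))]
      refine Finset.sum_congr rfl fun p _ => ?_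
      rw [hN, Finset.filter_filter]
      congr 1
      ext s
      simp [and_comm]
    rw [h1, ← Finset.add_sum_erase univ _ (mem_univ q),
      ← Finset.add_sum_erase univ (fun p => off β c p q) (mem_univ q)]
    have h2 : off β c q q = 0 := by simp [off]
    rw [h2, zero_add]
    congr 1
    refine Finset.sum_congr rfl fun p hp => ?_
    unfold off
    rw [if_neg (Finset.ne_of_mem_erase hp)]
  · have h1 : Nat.card {s : S // β s = q} = ∑ p, Nat.card {s : S // β s = q ∧ c s = p} := by
      rw [hN, Finset.card_eq_sum_card_fiberwise (f := c) (t := univ)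
        (fun _ _ => mem_coe.2 (mem_univ _))]
      refine Finset.sum_congr rfl fun p _ => ?_
      rw [hN, Finset.filter_filter]
      congr 1
      ext s
      simp
    rw [h1, ← Finset.add_sum_erase univ _ (mem_univ q),
      ← Finset.add_sum_erase univ (fun p => off β c q p) (mem_univ q)]
    have h2 : off β c q q = 0 := by simp [off]
    rw [h2, zero_add]
    congr 1
    refine Finset.sum_congr rfl fun p hp => ?_
    unfold off
    rw [if_neg (Ne.symm (Finset.ne_of_mem_erase hp))]

/-- the matrices that occur -/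
def JD_good {ι : Type} [Fintype ι] (C : (ι → ι → ℕ) → Prop) (E : ι → ι → ℕ) : Prop :=
  (∀ p, E p p = 0) ∧ (∀ q, ∑ p, E p q = ∑ p, E q p) ∧ C E

theorem JD_cond {S ι : Type} [Fintype S] [Fintype ι] [DecidableEq ι] (C : (ι → ι → ℕ) → Prop)
    (β c : S → ι) :
    ((∀ q, Nat.card {s : S // c s = q} = Nat.card {s : S // β s = q}) ∧ C (off β c)) ↔
      JD_good C (off β c) := by
  constructor
  · rintro ⟨h1, h2⟩
    refine ⟨fun p => by simp [off], fun q => ?_, h2⟩
    have h3 := JD_marg β c q
    have h4 := h1 q
    omega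
  · rintro ⟨-, h1, h2⟩
    refine ⟨fun q => ?_, h2⟩
    have h3 := JD_marg β c q
    have h4 := h1 q
    omega

open Polynomial in
/-- the polynomial of one matrix -/
noncomputable def JD_term {ι : Type} [Fintype ι] (δ : ι → ℕ) (E : ι → ι → ℕ) : Polynomial ℚ :=
  ∏ p, (Polynomial.C ((∏ q, ((E p q).factorial : ℚ))⁻¹) *
    (descPochhammer ℚ (∑ q, E p q)).comp (Polynomial.X - Polynomial.C (δ p : ℚ)))

theorem JD_term_deg {ι : Type} [Fintype ι] (δ : ι → ℕ) (E : ι → ι → ℕ) (K : ℕ)
    (hE : ∀ p q, E p q ≤ K) :
    (JD_term δ E).natDegree ≤ Fintype.card ι * (Fintype.card ι * K) := by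
  unfold JD_term
  refine (Polynomial.natDegree_prod_le _ _).trans ?_
  have h : ∀ p ∈ (univ : Finset ι), (Function.comp Polynomial.natDegree fun p =>
      (Polynomial.C ((∏ q, ((E p q).factorial : ℚ))⁻¹) *
        (descPochhammer ℚ (∑ q, E p q)).comp (Polynomial.X - Polynomial.C (δ p : ℚ)))) p ≤
      Fintype.card ι * K := by
    intro p _
    simp only [Function.comp_apply]
    refine (Polynomial.natDegree_C_mul_le _ _).trans ?_
    rw [Polynomial.natDegree_comp, Polynomial.natDegree_X_sub_C, mul_one,
      descPochhammer_natDegree]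
    calc ∑ q, E p q ≤ ∑ _q : ι, K := Finset.sum_le_sum fun q _ => hE p q
      _ = Fintype.card ι * K := by simp
  refine (Finset.sum_le_card_nsmul _ _ _ h).trans ?_
  simp

theorem JD_term_eval {S ι : Type} [Fintype S] [Fintype ι] [DecidableEq ι] (δ : ι → ℕ)
    (hδ : ∀ p, δ p ≤ 1) (E : ι → ι → ℕ) (hE : ∀ p, E p p = 0) (y : ℕ) (hy : 1 ≤ y) (β : S → ι)
    (hβ : ∀ p, Nat.card {s : S // β s = p} = y - δ p) :
    (Nat.card {c : S → ι // off β c = E} : ℚ) = (JD_term δ E).eval (y : ℚ) := by
  have h := JD_off β E hE
  have hq : (Nat.card {c : S → ι // off β c = E} : ℚ) * ∏ p, ∏ q, ((E p q).factorial : ℚ) =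
      ∏ p, ((y - δ p).descFactorial (∑ q, E p q) : ℚ) := by
    have h1 : ((Nat.card {c : S → ι // off β c = E} * ∏ p, ∏ q, (E p q).factorial : ℕ) : ℚ) =
      ((∏ p, (Nat.card {s : S // β s = p}).descFactorial (∑ q, E p q) : ℕ) : ℚ) := by rw [h]
    rw [Nat.cast_mul, Nat.cast_prod, Nat.cast_prod] at h1
    have h2 : ∀ p, ((∏ q, (E p q).factorial : ℕ) : ℚ) = ∏ q, ((E p q).factorial : ℚ) := fun p => by
      rw [Nat.cast_prod]
    simp only [h2, hβ] at h1
    exact h1
  unfold JD_term
  rw [Polynomial.eval_prod, ]
  have hne : ∏ p, ∏ q, ((E p q).factorial : ℚ) ≠ 0 := by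
    refine Finset.prod_ne_zero_iff.2 fun p _ => Finset.prod_ne_zero_iff.2 fun q _ => ?_
    exact_mod_cast Nat.factorial_ne_zero _
  apply mul_right_cancel₀ hne
  rw [hq, ← Finset.prod_mul_distrib]
  refine Finset.prod_congr rfl fun p _ => ?_
  have hne' : ∏ q, ((E p q).factorial : ℚ) ≠ 0 := by
    refine Finset.prod_ne_zero_iff.2 fun q _ => ?_
    exact_mod_cast Nat.factorial_ne_zero _
  rw [Polynomial.eval_mul, Polynomial.eval_C, Polynomial.eval_comp, Polynomial.eval_sub,
    Polynomial.eval_X, Polynomial.eval_C]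
  have hcast : (y : ℚ) - (δ p : ℚ) = ((y - δ p : ℕ) : ℚ) := by
    rw [Nat.cast_sub ((hδ p).trans hy)]
  rw [hcast, descPochhammer_eval_eq_descFactorial]
  field_simp

theorem exists_poly {ι : Type} [Fintype ι] [DecidableEq ι] (δ : ι → ℕ) (hδ : ∀ p, δ p ≤ 1)
    (C : (ι → ι → ℕ) → Prop) (K : ℕ)
    (hC : ∀ E : ι → ι → ℕ, (∀ p, E p p = 0) → C E → ∀ p q, E p q ≤ K) :
    ∃ P : Polynomial ℚ, P.natDegree ≤ Fintype.card ι * (Fintype.card ι * K) ∧
      ∀ y : ℕ, 1 ≤ y → ∀ (S : Type) [Fintype S] (β : S → ι),
        (∀ p, Nat.card {s : S // β s = p} = y - δ p) →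
        (Nat.card {c : S → ι // (∀ q, Nat.card {s : S // c s = q} = Nat.card {s : S // β s = q}) ∧
          C (off β c)} : ℚ) = P.eval (y : ℚ) := by
  classical
  let M := ι → ι → Fin (K + 1)
  let v : M → ι → ι → ℕ := fun E p q => (E p q).val
  refine ⟨∑ E : M, if JD_good C (v E) then JD_term δ (v E) else 0, ?_, ?_⟩
  · refine Polynomial.natDegree_sum_le_of_forall_le _ _ fun E _ => ?_
    by_cases hg : JD_good C (v E)
    · rw [if_pos hg]
      exact JD_term_deg δ (v E) K fun p q => Nat.lt_succ_iff.1 (E p q).isLt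
    · rw [if_neg hg]
      simp
  · intro y hy S _ β hβ
    rw [Polynomial.eval_finsetSum]
    let A := {c : S → ι // (∀ q, Nat.card {s : S // c s = q} = Nat.card {s : S // β s = q}) ∧
          C (off β c)}
    have hA : ∀ c : A, ∀ p q, off β c.1 p q < K + 1 := by
      intro c p q
      have h1 := (JD_cond C β c.1).1 c.2
      exact Nat.lt_succ_iff.2 (hC _ h1.1 h1.2.2 p q)
    let w : A → M := fun c p q => ⟨off β c.1 p q, hA c p q⟩
    have e : (Σ E : M, {c : A // w c = E}) ≃ A := Equiv.sigmaFiberEquiv w
    have hsum : (Nat.card A : ℚ) = ∑ E : M, (Nat.card {c : A // w c = E} : ℚ) := by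
      rw [← Nat.card_congr e, Nat.card_sigma, Nat.cast_sum]
    change (Nat.card A : ℚ) = _
    rw [hsum]
    refine Finset.sum_congr rfl fun E _ => ?_
    by_cases hg : JD_good C (v E)
    · rw [if_pos hg, ← JD_term_eval δ hδ (v E) hg.1 y hy β hβ]
      congr 1
      refine Nat.card_congr ?_
      refine { toFun := fun c => ⟨c.1.1, ?_⟩, invFun := fun c => ⟨⟨c.1, ?_⟩, ?_⟩,
               left_inv := ?_, right_inv := ?_ }
      · funext p q
        have h1 := c.2
        have h2 : (w c.1 p q).val = (E p q).val := by rw [h1]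
        exact h2
      · have h1 : JD_good C (off β c.1) := by rw [c.2]; exact hg
        exact (JD_cond C β c.1).2 h1
      · funext p q
        apply Fin.ext
        change off β c.1 p q = (E p q).val
        rw [c.2]
      · intro c
        rfl
      · intro c
        rfl
    · rw [if_neg hg, Polynomial.eval_zero]
      have he : IsEmpty {c : A // w c = E} := by
        constructor
        rintro ⟨c, hc⟩
        apply hg
        have h1 := (JD_cond C β c.1).1 c.2
        have h2 : v E = off β c.1 := by
          funext p q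
          change (E p q).val = _
          rw [← hc]
        rw [h2]
        exact h1
      rw [Nat.card_of_isEmpty, Nat.cast_zero]

end Pool.Agent.TH925.BR
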