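import Pool.Agent.TH925.BR.BDefs

/-! Job 1139 (helper511): the matrix `DM` has equal row and column sums. -/

namespace Pool.Agent.TH925.BR

open Finset Pool.Agent.H549R2.Convex Pool.Agent.H618R2.Skew

theorem JG1_two (n : ℕ) (f : ℕ → ℕ) :
    ∑ Q ∈ range (2 * n), f Q = ∑ y ∈ range n, (f (2 * y) + f (2 * y + 1)) := by
  induction n with
  | zero => simp
  | succ n ih =>
    rw [Finset.sum_range_succ, ← ih, show 2 * (n + 1) = 2 * n + 1 + 1 by ring,
      Finset.sum_range_succ, Finset.sum_range_succ]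
    ring

theorem JG1_DM (A : List (List Bool)) (P Q : ℕ) : DM A P Q =
    (if P % 2 = 0 ∧ Q % 2 = 0 ∧ P ≠ Q ∧ ent A (P / 2) (Q / 2) = true then 1 else 0) +
      (if Q = P + 1 then dnC A P else 0) + (if P = Q + 1 then upC A Q else 0) := by
  unfold DM
  by_cases h1 : P = Q
  · subst h1
    simp
  · rw [if_neg h1]
    by_cases h2 : P % 2 = 0 ∧ Q % 2 = 0
    · have h3 : Q ≠ P + 1 := by omega
      have h4 : P ≠ Q + 1 := by omega
      rw [if_pos h2, if_neg h3, if_neg h4]
      by_cases h5 : ent A (P / 2) (Q / 2) = true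
      · rw [if_pos h5, if_pos ⟨h2.1, h2.2, h1, h5⟩]
      · rw [if_neg h5, if_neg (fun h => h5 h.2.2.2)]
    · rw [if_neg h2, if_neg (fun h : P % 2 = 0 ∧ Q % 2 = 0 ∧ P ≠ Q ∧ _ => h2 ⟨h.1, h.2.1⟩)]
      by_cases h3 : Q = P + 1
      · have h4 : P ≠ Q + 1 := by omega
        rw [if_pos h3, if_pos h3, if_neg h4]
        ring
      · rw [if_neg h3, if_neg h3]
        ring

/-- the even part of a row -/
theorem JG1_even (n P : ℕ) (hP : P < 2 * n) (e : ℕ → ℕ → Bool) :
    ∑ Q ∈ range (2 * n), (if P % 2 = 0 ∧ Q % 2 = 0 ∧ P ≠ Q ∧ e (P / 2) (Q / 2) = true then 1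
      else 0) =
    ∑ x ∈ range n, ∑ y ∈ range n, if P = 2 * x ∧ x ≠ y ∧ e x y = true then 1 else 0 := by
  rw [JG1_two]
  by_cases hp : P % 2 = 0
  · have hR : ∑ x ∈ range n, ∑ y ∈ range n, (if P = 2 * x ∧ x ≠ y ∧ e x y = true then 1 else 0) =
        ∑ y ∈ range n, (if P = 2 * (P / 2) ∧ P / 2 ≠ y ∧ e (P / 2) y = true then 1 else 0) := by
      refine Finset.sum_eq_single (P / 2) ?_ ?_
      · intro x _ hx
        refine Finset.sum_eq_zero fun y _ => ?_
        rw [if_neg]
        rintro ⟨h, -⟩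
        omega
      · intro h
        rw [Finset.mem_range] at h
        omega
    rw [hR]
    refine Finset.sum_congr rfl fun y _ => ?_
    have h1 : ¬ (P % 2 = 0 ∧ (2 * y + 1) % 2 = 0 ∧ P ≠ 2 * y + 1 ∧
        e (P / 2) ((2 * y + 1) / 2) = true) := fun h => by omega
    rw [if_neg h1, add_zero]
    have h2 : 2 * y / 2 = y := by omega
    rw [h2]
    have h3 : (P % 2 = 0 ∧ 2 * y % 2 = 0 ∧ P ≠ 2 * y ∧ e (P / 2) y = true) ↔
        (P = 2 * (P / 2) ∧ P / 2 ≠ y ∧ e (P / 2) y = true) := by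
      constructor
      · rintro ⟨_, _, k3, k4⟩
        exact ⟨by omega, by omega, k4⟩
      · rintro ⟨_, k2, k3⟩
        exact ⟨hp, by omega, by omega, k3⟩
    simp only [h3]
  · rw [Finset.sum_eq_zero (fun y _ => by
      rw [if_neg (fun h => hp h.1), if_neg (fun h => hp h.1), add_zero])]
    symm
    refine Finset.sum_eq_zero fun x _ => Finset.sum_eq_zero fun y _ => ?_
    rw [if_neg]
    rintro ⟨h, -⟩
    omega

/-- the even part of a column -/
theorem JG1_even' (n P : ℕ) (hP : P < 2 * n) (e : ℕ → ℕ → Bool) :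
    ∑ Q ∈ range (2 * n), (if Q % 2 = 0 ∧ P % 2 = 0 ∧ Q ≠ P ∧ e (Q / 2) (P / 2) = true then 1
      else 0) =
    ∑ x ∈ range n, ∑ y ∈ range n, if P = 2 * y ∧ x ≠ y ∧ e x y = true then 1 else 0 := by
  have h1 := JG1_even n P hP (fun x y => e y x)
  rw [Finset.sum_comm]
  have h2 : ∀ x y : ℕ, (P = 2 * y ∧ x ≠ y ∧ e x y = true) ↔ (P = 2 * y ∧ y ≠ x ∧ e x y = true) :=
    fun x y => by rw [ne_comm]
  simp only [h2]
  rw [← h1]
  refine Finset.sum_congr rfl fun Q _ => ?_
  have h3 : (Q % 2 = 0 ∧ P % 2 = 0 ∧ Q ≠ P ∧ e (Q / 2) (P / 2) = true) ↔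
      (P % 2 = 0 ∧ Q % 2 = 0 ∧ P ≠ Q ∧ e (Q / 2) (P / 2) = true) := by
    constructor
    · rintro ⟨k1, k2, k3, k4⟩
      exact ⟨k2, k1, Ne.symm k3, k4⟩
    · rintro ⟨k1, k2, k3, k4⟩
      exact ⟨k2, k1, Ne.symm k3, k4⟩
  simp only [h3]

theorem JG1_succ (n P c : ℕ) : ∑ Q ∈ range (2 * n), (if Q = P + 1 then c else 0) =
    if P + 1 < 2 * n then c else 0 := by
  rw [Finset.sum_ite_eq']
  simp only [Finset.mem_range]

theorem JG1_pred (n P : ℕ) (hP : P < 2 * n) (f : ℕ → ℕ) :
    ∑ Q ∈ range (2 * n), (if P = Q + 1 then f Q else 0) = if 1 ≤ P then f (P - 1) else 0 := by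
  by_cases h : 1 ≤ P
  · rw [if_pos h, Finset.sum_eq_single (P - 1)]
    · rw [if_pos (by omega)]
    · intro Q _ hQ
      rw [if_neg (by omega)]
    · intro h'
      rw [Finset.mem_range] at h'
      omega
  · rw [if_neg h]
    refine Finset.sum_eq_zero fun Q _ => ?_
    rw [if_neg (by omega)]

theorem JG1_up (A : List (List Bool)) (P : ℕ) (hP : P < 2 * A.length) :
    (if P + 1 < 2 * A.length then upC A P else 0) = upC A P := by
  split_ifs with h
  · rfl
  · unfold upC
    symm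
    refine Finset.sum_eq_zero fun x hx => Finset.sum_eq_zero fun y hy => ?_
    rw [Finset.mem_range] at hx hy
    rw [if_neg]
    rintro ⟨_, h2, _⟩
    omega

theorem JG1_dn (A : List (List Bool)) (P : ℕ) (hP : P < 2 * A.length) :
    (if P + 1 < 2 * A.length then dnC A P else 0) = dnC A P := by
  split_ifs with h
  · rfl
  · unfold dnC
    symm
    refine Finset.sum_eq_zero fun x hx => Finset.sum_eq_zero fun y hy => ?_
    rw [Finset.mem_range] at hx hy
    rw [if_neg]
    rintro ⟨_, h2, _⟩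
    omega

theorem JG1_up' (A : List (List Bool)) (P : ℕ) :
    (if 1 ≤ P then upC A (P - 1) else 0) = ∑ x ∈ range A.length, ∑ y ∈ range A.length,
      if 2 * x < P ∧ P ≤ 2 * y ∧ ent A x y = true then 1 else 0 := by
  split_ifs with h
  · unfold upC
    refine Finset.sum_congr rfl fun x _ => Finset.sum_congr rfl fun y _ => ?_
    have h1 : (2 * x ≤ P - 1 ∧ P - 1 < 2 * y ∧ ent A x y = true) ↔
        (2 * x < P ∧ P ≤ 2 * y ∧ ent A x y = true) := by
      constructor
      · rintro ⟨k1, k2, k3⟩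
        exact ⟨by omega, by omega, k3⟩
      · rintro ⟨k1, k2, k3⟩
        exact ⟨by omega, by omega, k3⟩
    simp only [h1]
  · symm
    refine Finset.sum_eq_zero fun x _ => Finset.sum_eq_zero fun y _ => ?_
    rw [if_neg]
    rintro ⟨h1, _⟩
    omega

theorem JG1_dn' (A : List (List Bool)) (P : ℕ) :
    (if 1 ≤ P then dnC A (P - 1) else 0) = ∑ x ∈ range A.length, ∑ y ∈ range A.length,
      if 2 * y < P ∧ P ≤ 2 * x ∧ ent A x y = true then 1 else 0 := by
  split_ifs with h
  · unfold dnC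
    refine Finset.sum_congr rfl fun x _ => Finset.sum_congr rfl fun y _ => ?_
    have h1 : (2 * y ≤ P - 1 ∧ P - 1 < 2 * x ∧ ent A x y = true) ↔
        (2 * y < P ∧ P ≤ 2 * x ∧ ent A x y = true) := by
      constructor
      · rintro ⟨k1, k2, k3⟩
        exact ⟨by omega, by omega, k3⟩
      · rintro ⟨k1, k2, k3⟩
        exact ⟨by omega, by omega, k3⟩
    simp only [h1]
  · symm
    refine Finset.sum_eq_zero fun x _ => Finset.sum_eq_zero fun y _ => ?_
    rw [if_neg]
    rintro ⟨h1, _⟩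
    omega

theorem DM_bal (A : List (List Bool)) (hsq : ∀ r ∈ A, r.length = A.length) (P : ℕ) (hP : P < 2 * A.length) :
    ∑ Q ∈ range (2 * A.length), DM A P Q = ∑ Q ∈ range (2 * A.length), DM A Q P := by
  have _h := hsq
  have hr : ∑ Q ∈ range (2 * A.length), DM A P Q =
      ∑ x ∈ range A.length, ∑ y ∈ range A.length,
        ((if P = 2 * x ∧ x ≠ y ∧ ent A x y = true then 1 else 0) +
          (if 2 * y ≤ P ∧ P < 2 * x ∧ ent A x y = true then 1 else 0) +
          (if 2 * x < P ∧ P ≤ 2 * y ∧ ent A x y = true then 1 else 0)) := by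
    simp only [JG1_DM, Finset.sum_add_distrib]
    rw [JG1_even A.length P hP (ent A), JG1_succ, JG1_pred _ _ hP, JG1_dn A P hP, JG1_up']
    rfl
  have hc : ∑ Q ∈ range (2 * A.length), DM A Q P =
      ∑ x ∈ range A.length, ∑ y ∈ range A.length,
        ((if P = 2 * y ∧ x ≠ y ∧ ent A x y = true then 1 else 0) +
          (if 2 * y < P ∧ P ≤ 2 * x ∧ ent A x y = true then 1 else 0) +
          (if 2 * x ≤ P ∧ P < 2 * y ∧ ent A x y = true then 1 else 0)) := by
    simp only [JG1_DM, Finset.sum_add_distrib]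
    rw [JG1_even' A.length P hP (ent A), JG1_succ, JG1_pred _ _ hP, JG1_up A P hP, JG1_dn']
    rfl
  rw [hr, hc]
  refine Finset.sum_congr rfl fun x _ => Finset.sum_congr rfl fun y _ => ?_
  by_cases h : ent A x y = true
  · simp only [h, and_true]
    split_ifs <;> omega
  · simp only [h, and_false, if_false, Bool.false_eq_true]

theorem DM_le (A : List (List Bool)) (hn : 1 ≤ A.length) (P Q : ℕ) : DM A P Q ≤ A.length * A.length := by
  have h1 : 1 ≤ A.length * A.length := Nat.one_le_iff_ne_zero.2 (by positivity)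
  have hb : ∀ (c : ℕ → ℕ → Prop) [∀ x y, Decidable (c x y)],
      (∑ x ∈ range A.length, ∑ y ∈ range A.length, if c x y then 1 else 0) ≤
        A.length * A.length := by
    intro c _
    calc (∑ x ∈ range A.length, ∑ y ∈ range A.length, if c x y then 1 else 0)
        ≤ ∑ x ∈ range A.length, ∑ y ∈ range A.length, 1 := by
          refine Finset.sum_le_sum fun x _ => Finset.sum_le_sum fun y _ => ?_
          split_ifs <;> omega
      _ = A.length * A.length := by simp
  unfold DM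
  split_ifs
  · exact Nat.zero_le _
  · exact h1
  · exact Nat.zero_le _
  · exact hb _
  · exact hb _
  · exact Nat.zero_le _

end Pool.Agent.TH925.BR
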