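import Pool.Agent.TH925.BR.BDefs

/-! Job 1140 (helper511): a staircase matrix with nonzero permanent has ones on the diagonal. -/

namespace Pool.Agent.TH925.BR

open Finset Pool.Agent.H549R2.Convex Pool.Agent.H618R2.Skew

theorem JG2_pigeon {n : ℕ} (τ : Equiv.Perm (Fin n)) (k : Fin n) : ∃ j : Fin n, j ≤ k ∧ k ≤ τ j := by
  by_contra hcon
  push Not at hcon
  have h1 : (univ.filter fun j : Fin n => j ≤ k).card ≤ (univ.filter fun j : Fin n => j < k).card := by
    refine Finset.card_le_card_of_injOn τ ?_ (fun a _ b _ h => τ.injective h)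
    intro j hj
    have h2 := (Finset.mem_filter.1 (Finset.mem_coe.1 hj)).2
    exact Finset.mem_coe.2 (Finset.mem_filter.2 ⟨Finset.mem_univ _, hcon j h2⟩)
  have h2 : (univ.filter fun j : Fin n => j < k).card < (univ.filter fun j : Fin n => j ≤ k).card := by
    apply Finset.card_lt_card
    rw [Finset.ssubset_iff_of_subset (fun j hj => Finset.mem_filter.2 ⟨Finset.mem_univ _,
      (Finset.mem_filter.1 hj).2.le⟩)]
    exact ⟨k, by simp, by simp⟩
  omega

theorem diag_of_F (A : List (List Bool)) (hst : Staircase A) (hF : F A ≠ 0) (i : ℕ)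
    (hi : i < A.length) : ent A i i = true := by
  unfold F at hF
  split_ifs at hF with hsq
  · unfold Matrix.permanent at hF
    obtain ⟨σ, -, hσ⟩ := Finset.exists_ne_zero_of_sum_ne_zero hF
    rw [Finset.prod_ne_zero_iff] at hσ
    have h1 : ∀ j : Fin A.length, ent A (σ j).val j.val = true := by
      intro j
      have h2 := hσ j (Finset.mem_univ j)
      rw [Matrix.of_apply] at h2
      by_contra h3
      exact h2 (if_neg h3)
    obtain ⟨j, hj1, hj2⟩ := JG2_pigeon σ ⟨i, hi⟩
    obtain ⟨r, hr1, hr2⟩ := JG2_pigeon σ⁻¹ ⟨i, hi⟩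
    have h3 := h1 (σ⁻¹ r)
    have h4 : σ (σ⁻¹ r) = r := Equiv.apply_symm_apply σ r
    rw [h4] at h3
    exact hst r.val i (σ j).val (σ⁻¹ r).val i j.val hr1 hj2 hj1 hr2 h3 (h1 j)
  · exact absurd rfl hF

end Pool.Agent.TH925.BR
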