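import Pool.Agent.TH925.BR.BDefs

set_option autoImplicit false

/-!
# Words for block sizes 1 and 0 are the permutations counted by the permanent
-/

namespace Pool.Agent.TH925.BR

open Finset Pool.Agent.H549R2.Convex Pool.Agent.H618R2.Skew

theorem JG3_equiv {n : ℕ} {S : Type} [Fintype S] (β : S → Fin (2 * n))
    (hβ : ∀ p, Nat.card {s : S // β s = p} = 1 - p.val % 2) :
    ∃ e : S ≃ Fin n, ∀ s, (β s).val = 2 * (e s).val := by
  have heven : ∀ s, (β s).val % 2 = 0 := by
    intro s
    by_contra hcon
    have h1 := hβ (β s)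
    have h2 : Nat.card {s' : S // β s' = β s} = 0 := by omega
    rw [Nat.card_eq_zero] at h2
    rcases h2 with h2 | h2
    · exact h2.elim ⟨s, rfl⟩
    · exact h2.not_finite inferInstance
  let g : S → Fin n := fun s => ⟨(β s).val / 2, by have := (β s).isLt; omega⟩
  have hg : Function.Bijective g := by
    constructor
    · intro s s' hss
      have h1 : (β s).val / 2 = (β s').val / 2 := congrArg Fin.val hss
      have h2 : β s = β s' := by
        apply Fin.ext
        have := heven s
        have := heven s'
        omega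
      have h3 : Nat.card {t : S // β t = β s'} = 1 := by
        have := hβ (β s')
        have := heven s'
        omega
      rw [Nat.card_eq_one_iff_unique] at h3
      have h4 := h3.1.elim (⟨s, h2⟩ : {t : S // β t = β s'}) ⟨s', rfl⟩
      exact congrArg Subtype.val h4
    · intro i
      have hi := i.isLt
      have h1 := hβ ⟨2 * i.val, by omega⟩
      have h2 : Nat.card {t : S // β t = ⟨2 * i.val, by omega⟩} = 1 := by
        rw [h1]
        show 1 - (2 * i.val) % 2 = 1
        omega
      rw [Nat.card_eq_one_iff_unique] at h2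
      obtain ⟨⟨s, hs⟩⟩ := h2.2
      refine ⟨s, Fin.ext ?_⟩
      show (β s).val / 2 = i.val
      rw [hs]
      show 2 * i.val / 2 = i.val
      omega
  refine ⟨Equiv.ofBijective g hg, fun s => ?_⟩
  show (β s).val = 2 * ((β s).val / 2)
  have := heven s
  omega

theorem JG3_fibre {n : ℕ} {S : Type} (e : S ≃ Fin n) (c : S → Fin (2 * n))
    (hc : ∀ s, (c s).val = 2 * (e s).val) (q : Fin (2 * n)) :
    Nat.card {s : S // c s = q} = 1 - q.val % 2 := by
  rcases Nat.even_or_odd q.val with hq | hq
  · have h0 : 1 - q.val % 2 = 1 := by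
      rw [Nat.even_iff] at hq
      omega
    rw [h0, Nat.card_eq_one_iff_unique]
    rw [Nat.even_iff] at hq
    refine ⟨⟨?_⟩, ⟨⟨e.symm ⟨q.val / 2, by have := q.isLt; omega⟩, ?_⟩⟩⟩
    · rintro ⟨s, hs⟩ ⟨s', hs'⟩
      apply Subtype.ext
      apply e.injective
      apply Fin.ext
      have h1 := hc s
      have h2 := hc s'
      rw [hs] at h1
      rw [hs'] at h2
      show (e s).val = (e s').val
      omega
    · apply Fin.ext
      rw [hc, Equiv.apply_symm_apply]
      show 2 * (q.val / 2) = q.val
      omega
  · rw [Nat.odd_iff] at hq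
    have h0 : 1 - q.val % 2 = 0 := by omega
    rw [h0, Nat.card_eq_zero]
    left
    refine ⟨?_⟩
    rintro ⟨s, hs⟩
    have h1 := hc s
    rw [hs] at h1
    omega

theorem JG3_off_le (A : List (List Bool)) {S : Type} [Finite S] (e : S ≃ Fin A.length)
    (σ : Equiv.Perm (Fin A.length)) (β c : S → Fin (2 * A.length))
    (hβ : ∀ s, (β s).val = 2 * (e s).val) (hc : ∀ s, (c s).val = 2 * (σ (e s)).val)
    (hσ : ∀ i, ent A i.val (σ i).val = true) (p q : Fin (2 * A.length)) :
    off β c p q ≤ DM A p.val q.val := by
  unfold off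
  split_ifs with hpq
  · exact Nat.zero_le _
  · by_cases hex : ∃ s, β s = p ∧ c s = q
    · obtain ⟨s, hs1, hs2⟩ := hex
      have h1 : Nat.card {t : S // β t = p ∧ c t = q} ≤ 1 := by
        rw [Finite.card_le_one_iff_subsingleton]
        refine ⟨?_⟩
        rintro ⟨t, ht⟩ ⟨t', ht'⟩
        apply Subtype.ext
        apply e.injective
        apply Fin.ext
        have e1 := hβ t
        have e2 := hβ t'
        rw [ht.1] at e1
        rw [ht'.1] at e2
        show (e t).val = (e t').val
        omega
      refine h1.trans ?_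
      have hp : p.val = 2 * (e s).val := by rw [← hs1]; exact hβ s
      have hq : q.val = 2 * (σ (e s)).val := by rw [← hs2]; exact hc s
      have hne : p.val ≠ q.val := fun h => hpq (Fin.ext h)
      unfold DM
      rw [if_neg hne, if_pos ⟨by omega, by omega⟩]
      have e1 : p.val / 2 = (e s).val := by omega
      have e2 : q.val / 2 = (σ (e s)).val := by omega
      rw [e1, e2, if_pos (hσ (e s))]
    · have h0 : Nat.card {t : S // β t = p ∧ c t = q} = 0 := by
        rw [Nat.card_eq_zero]
        left
        exact ⟨fun t => hex ⟨t.1, t.2⟩⟩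
      rw [h0]
      exact Nat.zero_le _

theorem JG3_off_pos {n : ℕ} {S : Type} [Finite S] (β c : S → Fin (2 * n)) (s : S)
    (hne : β s ≠ c s) : 1 ≤ off β c (β s) (c s) := by
  unfold off
  rw [if_neg hne]
  have : Nonempty {t : S // β t = β s ∧ c t = c s} := ⟨⟨s, rfl, rfl⟩⟩
  exact Nat.card_pos

theorem JG3_ne_ge {m : ℕ} (E : Fin m → Fin m → ℕ) (p q : Fin m) (i j : ℕ) (hp : p.val < i)
    (hq : j ≤ q.val) : E p q ≤ ne E i j := by
  unfold ne
  calc E p q = (if p.val < i ∧ j ≤ q.val then E p q else 0) := by rw [if_pos ⟨hp, hq⟩]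
    _ ≤ ∑ q' : Fin m, if p.val < i ∧ j ≤ q'.val then E p q' else 0 :=
        Finset.single_le_sum (f := fun q' : Fin m => if p.val < i ∧ j ≤ q'.val then E p q' else 0)
          (fun _ _ => Nat.zero_le _) (mem_univ q)
    _ ≤ _ := Finset.single_le_sum
          (f := fun p' : Fin m => ∑ q' : Fin m, if p'.val < i ∧ j ≤ q'.val then E p' q' else 0)
          (fun _ _ => Nat.zero_le _) (mem_univ p)

theorem JG3_sw_ge {m : ℕ} (E : Fin m → Fin m → ℕ) (p q : Fin m) (i j : ℕ) (hp : i ≤ p.val)
    (hq : q.val < j) : E p q ≤ sw E i j := by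
  unfold sw
  calc E p q = (if i ≤ p.val ∧ q.val < j then E p q else 0) := by rw [if_pos ⟨hp, hq⟩]
    _ ≤ ∑ q' : Fin m, if i ≤ p.val ∧ q'.val < j then E p q' else 0 :=
        Finset.single_le_sum (f := fun q' : Fin m => if i ≤ p.val ∧ q'.val < j then E p q' else 0)
          (fun _ _ => Nat.zero_le _) (mem_univ q)
    _ ≤ _ := Finset.single_le_sum
          (f := fun p' : Fin m => ∑ q' : Fin m, if i ≤ p'.val ∧ q'.val < j then E p' q' else 0)
          (fun _ _ => Nat.zero_le _) (mem_univ p)

theorem JG3_ne_zero (A : List (List Bool)) (hst : Staircase A)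
    (hd : ∀ i < A.length, ent A i i = true) (i j : ℕ) (hi : i < A.length) (hij : i < j)
    (hf : ¬ ent A i j = true) :
    ne (fun P Q : Fin (2 * A.length) => DM A P.val Q.val) (2 * i + 1) (2 * j) = 0 := by
  unfold ne
  apply Finset.sum_eq_zero
  intro P _
  apply Finset.sum_eq_zero
  intro Q _
  split_ifs with h
  · obtain ⟨h1, h2⟩ := h
    show DM A P.val Q.val = 0
    unfold DM
    rw [if_neg (by omega)]
    split_ifs with h3 h4 h5 h6
    · exfalso
      apply hf
      exact hst (P.val / 2) i i (Q.val / 2) j i (by omega) (le_refl _) (by omega) (by omega) h4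
        (hd i hi)
    · rfl
    · omega
    · omega
    · rfl
  · rfl

theorem JG3_sw_zero (A : List (List Bool)) (hst : Staircase A)
    (hd : ∀ i < A.length, ent A i i = true) (i j : ℕ) (hi : i < A.length) (hij : j < i)
    (hf : ¬ ent A i j = true) :
    sw (fun P Q : Fin (2 * A.length) => DM A P.val Q.val) (2 * i) (2 * j + 1) = 0 := by
  unfold sw
  apply Finset.sum_eq_zero
  intro P _
  apply Finset.sum_eq_zero
  intro Q _
  split_ifs with h
  · obtain ⟨h1, h2⟩ := h
    show DM A P.val Q.val = 0
    unfold DM
    rw [if_neg (by omega)]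
    split_ifs with h3 h4 h5 h6
    · exfalso
      apply hf
      exact hst i i (P.val / 2) i j (Q.val / 2) (le_refl _) (by omega) (by omega) (by omega)
        (hd i hi) h4
    · rfl
    · omega
    · omega
    · rfl
  · rfl

theorem board (A : List (List Bool)) (hsq : ∀ r ∈ A, r.length = A.length) (hst : Staircase A)
    (hd : ∀ i < A.length, ent A i i = true) (S : Type) [Fintype S]
    (β : S → Fin (2 * A.length)) (hβ : ∀ p, Nat.card {s : S // β s = p} = 1 - p.val % 2) :
    Nat.card {c : S → Fin (2 * A.length) //
      (∀ q, Nat.card {s : S // c s = q} = Nat.card {s : S // β s = q}) ∧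
        Dom (fun P Q : Fin (2 * A.length) => DM A P.val Q.val) (off β c)} = F A := by
  obtain ⟨e, he⟩ := JG3_equiv β hβ
  rw [F_eq_card' A hsq A.length rfl, ← Fintype.card_subtype, ← Nat.card_eq_fintype_card]
  symm
  let cc : Equiv.Perm (Fin A.length) → S → Fin (2 * A.length) :=
    fun σ s => ⟨2 * (σ (e s)).val, by have := (σ (e s)).isLt; omega⟩
  have hcc : ∀ σ s, (cc σ s).val = 2 * (σ (e s)).val := fun σ s => rfl
  refine Nat.card_eq_of_bijective
    (fun σ : {σ : Equiv.Perm (Fin A.length) // ∀ i : Fin A.length,
        ent A i.val (σ i).val = true} =>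
      (⟨cc σ.1, ?_, ?_⟩ : {c : S → Fin (2 * A.length) //
        (∀ q, Nat.card {s : S // c s = q} = Nat.card {s : S // β s = q}) ∧
        Dom (fun P Q : Fin (2 * A.length) => DM A P.val Q.val) (off β c)})) ?_
  · intro q
    rw [hβ q]
    exact JG3_fibre (e.trans σ.1) (cc σ.1) (fun s => hcc σ.1 s) q
  · intro i j
    have hle := JG3_off_le A e σ.1 β (cc σ.1) he (hcc σ.1) σ.2
    constructor
    · intro _
      unfold ne
      refine Finset.sum_le_sum fun p _ => Finset.sum_le_sum fun q _ => ?_
      split_ifs
      · exact hle p q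
      · exact le_refl _
    · intro _
      unfold sw
      refine Finset.sum_le_sum fun p _ => Finset.sum_le_sum fun q _ => ?_
      split_ifs
      · exact hle p q
      · exact le_refl _
  · constructor
    · intro σ σ' hss
      have h1 : cc σ.1 = cc σ'.1 := congrArg Subtype.val hss
      apply Subtype.ext
      apply Equiv.ext
      intro i
      apply Fin.ext
      have h2 := congrArg Fin.val (congrFun h1 (e.symm i))
      rw [hcc, hcc, Equiv.apply_symm_apply] at h2
      omega
    · rintro ⟨c, hc1, hc2⟩
      obtain ⟨e', he'⟩ := JG3_equiv c (fun p => by rw [hc1 p, hβ p])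
      let σ : Equiv.Perm (Fin A.length) := e.symm.trans e'
      have hσ : ∀ s, σ (e s) = e' s := fun s => by
        show e' (e.symm (e s)) = e' s
        rw [Equiv.symm_apply_apply]
      have hcσ : c = cc σ := by
        funext s
        apply Fin.ext
        rw [hcc, hσ, he']
      have hent : ∀ i : Fin A.length, ent A i.val (σ i).val = true := by
        intro i
        by_contra hf
        obtain ⟨s, rfl⟩ := e.surjective i
        have hb := he s
        have hcs : (c s).val = 2 * (σ (e s)).val := by rw [hσ]; exact he' s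
        rcases lt_trichotomy (e s).val (σ (e s)).val with hlt | heq | hgt
        · have h0 := JG3_ne_zero A hst hd (e s).val (σ (e s)).val (e s).isLt hlt hf
          have h1 := (hc2 (2 * (e s).val + 1) (2 * (σ (e s)).val)).1 (by omega)
          rw [h0] at h1
          have h2 := JG3_ne_ge (off β c) (β s) (c s) (2 * (e s).val + 1) (2 * (σ (e s)).val)
            (by omega) (by omega)
          have h3 := JG3_off_pos β c s (fun h => by
            have := congrArg Fin.val h
            omega)
          omega
        · apply hf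
          rw [← heq]
          exact hd _ (e s).isLt
        · have h0 := JG3_sw_zero A hst hd (e s).val (σ (e s)).val (e s).isLt hgt hf
          have h1 := (hc2 (2 * (e s).val) (2 * (σ (e s)).val + 1)).2 (by omega)
          rw [h0] at h1
          have h2 := JG3_sw_ge (off β c) (β s) (c s) (2 * (e s).val) (2 * (σ (e s)).val + 1)
            (by omega) (by omega)
          have h3 := JG3_off_pos β c s (fun h => by
            have := congrArg Fin.val h
            omega)
          omega
      exact ⟨⟨σ, hent⟩, Subtype.ext hcσ.symm⟩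

end Pool.Agent.TH925.BR
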