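import Pool.Agent.TH925.BR.BDefs
import Pool.Agent.H618R2.Skew.T4b

/-!
# The permutations attached to a staircase matrix
-/

namespace Pool.Agent.TH925.BR

open Finset Pool.Agent.H549R2.Convex Pool.Agent.H618R2.Skew Pool.Agent.NPC Pool.Agent.NPC.Cnt
open Pool.Agent.NPC.H549Convex (LL)

/-- bound for the sum of all block counts -/
def KB (A : LL) : ℕ := 2 * A.length * (2 * A.length * (A.length * A.length))

/-- start of the block `P`; the blocks with even number have size `y`, the others `y - 1` -/
def XX (y P : ℕ) : ℕ := P / 2 * (2 * y - 1) + P % 2 * y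

/-- the block matrix -/
def MM (A : LL) (y P Q : ℕ) : ℕ :=
  if P = Q then y - P % 2 - ∑ R ∈ range (2 * A.length), DM A P R else DM A P Q

/-- one-line notation of the permutation with block sizes `y` and `y - 1` -/
def WW (A : LL) (y : ℕ) : List ℕ := wl (2 * A.length) (MM A y) (XX y)

end Pool.Agent.TH925.BR
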