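import Pool.Agent.TH925.BR.Core
import Pool.Agent.TH925.BR.JD
import Pool.Agent.TH925.BR.JG1
import Pool.Agent.TH925.BR.JG2
import Pool.Agent.TH925.BR.JG3
import Pool.Agent.TH925.BR.RDefs

/-!
# The permanent of a staircase matrix from the sizes of lower Bruhat intervals
-/

namespace Pool.Agent.TH925.BR

open Finset Pool.Agent.H549R2.Convex Pool.Agent.H618R2.Skew
open Pool.Agent.NPC.H549Convex (LL)

/-! ### Extrapolation -/

/-- the value at `1` of a polynomial of degree at most `d` from its values at `1 + t s`,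
`1 ≤ t ≤ d + 1` -/
theorem extrapolate (P : Polynomial ℚ) (d s : ℕ) (hd : P.natDegree ≤ d) (T : ℕ → ℕ)
    (hT : ∀ t ≤ d + 1, (T t : ℚ) = P.eval (((1 + t * s : ℕ) : ℚ))) :
    T 0 = (∑ t ∈ range (d + 2), if t % 2 = 1 then (d + 1).choose t * T t else 0) -
      (∑ t ∈ range (d + 2), if t % 2 = 0 ∧ t ≠ 0 then (d + 1).choose t * T t else 0) := by
  set Q : Polynomial ℚ := P.comp (Polynomial.C (s : ℚ) * Polynomial.X + Polynomial.C 1) with hQ
  have hQd : Q.natDegree < d + 1 := by
    have h1 : Q.natDegree ≤ P.natDegree * (Polynomial.C (s : ℚ) * Polynomial.X +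
        Polynomial.C 1).natDegree := Polynomial.natDegree_comp_le
    have h2 : (Polynomial.C (s : ℚ) * Polynomial.X + Polynomial.C 1).natDegree ≤ 1 :=
      Polynomial.natDegree_linear_le
    have h3 := Nat.mul_le_mul_left P.natDegree h2
    omega
  have h1 := Polynomial.fwdDiff_iter_eq_zero_of_degree_lt hQd
  have h2 := congrFun h1 0
  rw [fwdDiff_iter_eq_sum_shift] at h2
  simp only [Pi.zero_apply, zero_add, nsmul_eq_mul, mul_one, zsmul_eq_mul] at h2
  have h3 : ∀ t ∈ range (d + 1 + 1), ((((-1) ^ (d + 1 - t) * ((d + 1).choose t : ℤ) : ℤ) : ℚ) *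
      Q.eval (t : ℚ)) = (-1) ^ (d + 1) * ((-1) ^ t * (((d + 1).choose t : ℕ) : ℚ) * (T t : ℚ)) := by
    intro t ht
    rw [mem_range] at ht
    have e1 : Q.eval (t : ℚ) = (T t : ℚ) := by
      rw [hT t (by omega), hQ, Polynomial.eval_comp]
      congr 1
      simp only [Polynomial.eval_add, Polynomial.eval_mul, Polynomial.eval_C, Polynomial.eval_X]
      push_cast
      ring
    have e2 : ((-1 : ℚ)) ^ (d + 1 - t) = (-1) ^ (d + 1) * (-1) ^ t := by
      have h4 : (-1 : ℚ) ^ (d + 1 - t) * (-1) ^ t = (-1) ^ (d + 1) := by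
        rw [← pow_add]
        congr 1
        omega
      have h5 : (-1 : ℚ) ^ t * (-1) ^ t = 1 := by
        rw [← mul_pow]
        norm_num
      rw [← h4, mul_assoc, h5, mul_one]
    rw [e1]
    push_cast
    rw [e2]
    ring
  rw [sum_congr rfl h3, ← mul_sum] at h2
  have h4 : ∑ t ∈ range (d + 1 + 1), (-1 : ℚ) ^ t * (((d + 1).choose t : ℕ) : ℚ) * (T t : ℚ) = 0 := by
    rcases mul_eq_zero.1 h2 with h5 | h5
    · exact absurd h5 (pow_ne_zero _ (by norm_num))
    · exact h5
  have h5 : (T 0 : ℚ) + ((∑ t ∈ range (d + 2), if t % 2 = 0 ∧ t ≠ 0 then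
      (d + 1).choose t * T t else 0 : ℕ) : ℚ) =
      ((∑ t ∈ range (d + 2), if t % 2 = 1 then (d + 1).choose t * T t else 0 : ℕ) : ℚ) := by
    have h6 : (T 0 : ℚ) = ∑ t ∈ range (d + 2), if t = 0 then (T 0 : ℚ) else 0 := by
      rw [sum_ite_eq' (range (d + 2)) 0 fun _ => (T 0 : ℚ), if_pos (by simp)]
    rw [h6, Nat.cast_sum, Nat.cast_sum, ← sum_add_distrib, ← sub_eq_zero, ← sum_sub_distrib]
    refine (sum_congr rfl fun t _ => ?_).trans h4
    rcases Nat.even_or_odd t with ht | ht
    · have h7 : t % 2 = 0 := Nat.even_iff.1 ht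
      rw [ht.neg_one_pow, one_mul]
      by_cases h0 : t = 0
      · subst h0
        simp
      · rw [if_neg h0, if_pos ⟨h7, h0⟩, if_neg (by omega)]
        push_cast
        ring
    · have h7 : t % 2 = 1 := Nat.odd_iff.1 ht
      rw [ht.neg_one_pow, if_neg (by omega), if_neg (by omega), if_pos h7]
      push_cast
      ring
  have h6 : T 0 + (∑ t ∈ range (d + 2), if t % 2 = 0 ∧ t ≠ 0 then (d + 1).choose t * T t else 0) =
      ∑ t ∈ range (d + 2), if t % 2 = 1 then (d + 1).choose t * T t else 0 := by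
    exact_mod_cast h5
  omega

/-! ### Bounds for dominated matrices -/

theorem le_ne {m : ℕ} (E : Fin m → Fin m → ℕ) (p q : Fin m) (h : p < q) :
    E p q ≤ ne E (p.val + 1) (p.val + 1) := by
  have h' : p.val < q.val := h
  rw [ne]
  refine le_trans ?_ (single_le_sum (f := fun p' : Fin m => ∑ q' : Fin m,
    if p'.val < p.val + 1 ∧ p.val + 1 ≤ q'.val then E p' q' else 0) (fun _ _ => Nat.zero_le _)
    (mem_univ p))
  refine le_trans ?_ (single_le_sum (f := fun q' : Fin m =>
    if p.val < p.val + 1 ∧ p.val + 1 ≤ q'.val then E p q' else 0) (fun _ _ => Nat.zero_le _)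
    (mem_univ q))
  rw [if_pos (by omega)]

theorem le_sw {m : ℕ} (E : Fin m → Fin m → ℕ) (p q : Fin m) (h : q < p) :
    E p q ≤ sw E (q.val + 1) (q.val + 1) := by
  have h' : q.val < p.val := h
  rw [sw]
  refine le_trans ?_ (single_le_sum (f := fun p' : Fin m => ∑ q' : Fin m,
    if q.val + 1 ≤ p'.val ∧ q'.val < q.val + 1 then E p' q' else 0) (fun _ _ => Nat.zero_le _)
    (mem_univ p))
  refine le_trans ?_ (single_le_sum (f := fun q' : Fin m =>
    if q.val + 1 ≤ p.val ∧ q'.val < q.val + 1 then E p q' else 0) (fun _ _ => Nat.zero_le _)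
    (mem_univ q))
  rw [if_pos (by omega)]

theorem ne_le {m : ℕ} (E : Fin m → Fin m → ℕ) (B : ℕ) (hB : ∀ p q, E p q ≤ B) (i j : ℕ) :
    ne E i j ≤ m * (m * B) := by
  rw [ne]
  refine (sum_le_card_nsmul _ _ (m * B) fun p _ => ?_).trans (by simp)
  refine (sum_le_card_nsmul _ _ B fun q _ => ?_).trans (by simp)
  split_ifs
  · exact hB p q
  · exact Nat.zero_le _

theorem sw_le {m : ℕ} (E : Fin m → Fin m → ℕ) (B : ℕ) (hB : ∀ p q, E p q ≤ B) (i j : ℕ) :
    sw E i j ≤ m * (m * B) := by
  rw [sw]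
  refine (sum_le_card_nsmul _ _ (m * B) fun p _ => ?_).trans (by simp)
  refine (sum_le_card_nsmul _ _ B fun q _ => ?_).trans (by simp)
  split_ifs
  · exact hB p q
  · exact Nat.zero_le _

theorem dom_le {m : ℕ} (D : Fin m → Fin m → ℕ) (B : ℕ) (hB : ∀ p q, D p q ≤ B)
    (E : Fin m → Fin m → ℕ) (h0 : ∀ p, E p p = 0) (h : Dom D E) (p q : Fin m) :
    E p q ≤ m * (m * B) := by
  rcases lt_trichotomy p q with hpq | hpq | hpq
  · exact (le_ne E p q hpq).trans (((h _ _).1 le_rfl).trans (ne_le D B hB _ _))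
  · rw [hpq, h0]
    exact Nat.zero_le _
  · exact (le_sw E p q hpq).trans (((h _ _).2 le_rfl).trans (sw_le D B hB _ _))

/-! ### Block starts -/

theorem XX_zero (y : ℕ) : XX y 0 = 0 := by simp [XX]

theorem XX_succ (y P : ℕ) (hy : 1 ≤ y) : XX y (P + 1) = XX y P + (y - P % 2) := by
  unfold XX
  rcases Nat.mod_two_eq_zero_or_one P with h | h
  · have h1 : (P + 1) / 2 = P / 2 := by omega
    have h2 : (P + 1) % 2 = 1 := by omega
    rw [h1, h2, h]
    omega
  · have h1 : (P + 1) / 2 = P / 2 + 1 := by omega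
    have h2 : (P + 1) % 2 = 0 := by omega
    rw [h1, h2, h]
    have h3 : (P / 2 + 1) * (2 * y - 1) = P / 2 * (2 * y - 1) + (2 * y - 1) := by ring
    omega

theorem XX_mono (y : ℕ) (hy : 1 ≤ y) : Monotone (XX y) :=
  monotone_nat_of_le_succ fun P => by rw [XX_succ y P hy]; exact Nat.le_add_right _ _

/-! ### The permanent -/

/-- the number of words for the block sizes `y`, `y - 1` -/
noncomputable def TT (A : LL) (y : ℕ) : ℕ :=
  below (WW A y) / ∏ q : Fin (2 * A.length), (y - q.val % 2).factorial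

theorem row_le (A : LL) (P : ℕ) : ∑ R ∈ range (2 * A.length), DM A P R ≤ KB A := by
  rcases Nat.eq_zero_or_pos A.length with h | h
  · rw [h]
    simp
  · refine (sum_le_card_nsmul _ _ (A.length * A.length) fun R _ => DM_le A h P R).trans ?_
    rw [card_range, smul_eq_mul, KB]
    exact Nat.le_mul_of_pos_left _ (by omega)

theorem MM_row (A : LL) (y P : ℕ) (hP : P < 2 * A.length)
    (hy : ∑ R ∈ range (2 * A.length), DM A P R ≤ y - P % 2) :
    ∑ Q ∈ range (2 * A.length), MM A y P Q = y - P % 2 := by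
  have h1 : ∀ Q ∈ range (2 * A.length), MM A y P Q =
      (if P = Q then (y - P % 2 - ∑ R ∈ range (2 * A.length), DM A P R) else 0) + DM A P Q := by
    intro Q _
    unfold MM
    by_cases h : P = Q
    · rw [if_pos h, if_pos h]
      have : DM A P Q = 0 := by rw [DM, if_pos h]
      rw [this, add_zero]
    · rw [if_neg h, if_neg h, zero_add]
  rw [sum_congr rfl h1, sum_add_distrib, sum_ite_eq, if_pos (mem_range.2 hP)]
  omega

theorem MM_col (A : LL) (y Q : ℕ) (hQ : Q < 2 * A.length)
    (hsq : ∀ r ∈ A, r.length = A.length)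
    (hy : ∑ R ∈ range (2 * A.length), DM A Q R ≤ y - Q % 2) :
    ∑ P ∈ range (2 * A.length), MM A y P Q = y - Q % 2 := by
  have h1 : ∀ P ∈ range (2 * A.length), MM A y P Q =
      (if P = Q then (y - Q % 2 - ∑ R ∈ range (2 * A.length), DM A Q R) else 0) + DM A P Q := by
    intro P _
    unfold MM
    by_cases h : P = Q
    · rw [if_pos h, if_pos h, h]
      have : DM A Q Q = 0 := by rw [DM, if_pos rfl]
      rw [this, add_zero]
    · rw [if_neg h, if_neg h, zero_add]
  rw [sum_congr rfl h1, sum_add_distrib, sum_ite_eq', if_pos (mem_range.2 hQ),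
    ← DM_bal A hsq Q hQ]
  omega

/-- **The permanent of a staircase matrix with ones on the diagonal from the numbers `TT`.** -/
theorem F_eq_extra (A : LL) (hsq : ∀ r ∈ A, r.length = A.length) (hst : Staircase A)
    (hd : ∀ i < A.length, ent A i i = true) (d : ℕ)
    (hdd : 2 * A.length * (2 * A.length * KB A) ≤ d) :
    F A = (∑ t ∈ range (d + 2), if t % 2 = 1 then (d + 1).choose t * TT A (1 + t * KB A) else 0) -
      (∑ t ∈ range (d + 2), if t % 2 = 0 ∧ t ≠ 0 then (d + 1).choose t * TT A (1 + t * KB A)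
        else 0) := by
  classical
  set m := 2 * A.length with hm
  set D : Fin m → Fin m → ℕ := fun P Q => DM A P.val Q.val with hD
  obtain ⟨P, hPd, hP⟩ := exists_poly (ι := Fin m) (fun p => p.val % 2)
    (fun p => by have := Nat.mod_lt p.val (show 0 < 2 by norm_num); omega) (Dom D) (KB A) (by
      intro E h0 h p q
      have hn : 1 ≤ A.length := by have := p.2; omega
      exact dom_le D (A.length * A.length) (fun p q => DM_le A hn p.val q.val) E h0 h p q)
  rw [Fintype.card_fin] at hPd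
  -- the value at `1`
  have hbeta : ∀ y : ℕ, 1 ≤ y → ∃ β : Fin (XX y m) → Fin m,
      ∀ p : Fin m, Nat.card {k // β k = p} = y - p.val % 2 := by
    intro y hy
    obtain ⟨β, hX⟩ := exists_beta (m := m) (XX y) (XX_zero y) (XX_mono y hy)
    refine ⟨β, fun p => ?_⟩
    rw [fiber_card β (XX y) hX (fun i hi => XX_mono y hy hi) p, XX_succ y p.val hy]
    omega
  have h1 : (F A : ℚ) = P.eval (((1 : ℕ)) : ℚ) := by
    obtain ⟨β, hβ⟩ := hbeta 1 le_rfl
    rw [← hP 1 le_rfl _ β hβ, ← board A hsq hst hd _ β hβ]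
  have h2 : ∀ t : ℕ, 1 ≤ t → (TT A (1 + t * KB A) : ℚ) = P.eval (((1 + t * KB A : ℕ)) : ℚ) := by
    intro t ht
    set y := 1 + t * KB A with hy
    have hyK : KB A + 1 ≤ y := by
      have := Nat.mul_le_mul_right (KB A) ht
      omega
    have hrow : ∀ Q : ℕ, ∑ R ∈ range m, DM A Q R ≤ y - Q % 2 := by
      intro Q
      have h4 : ∑ R ∈ range m, DM A Q R ≤ KB A := row_le A Q
      have h3 := Nat.mod_lt Q (show 0 < 2 by norm_num)
      omega
    obtain ⟨β, hβ, hb⟩ := below_wl m (MM A y) (XX y) (XX_zero y) (XX_mono y (by omega))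
      (fun P hP => by rw [XX_succ y P (by omega), MM_row A y P hP (hrow P)])
      (fun Q hQ => by rw [XX_succ y Q (by omega), MM_col A y Q hQ hsq (hrow Q)])
    have hsz : ∀ p : Fin m, XX y (p.val + 1) - XX y p.val = y - p.val % 2 := by
      intro p
      rw [XX_succ y p.val (by omega)]
      omega
    have hDeq : (fun P Q : Fin m => if P = Q then 0 else MM A y P.val Q.val) = D := by
      funext P Q
      by_cases h : P = Q
      · rw [if_pos h, hD]
        simp only
        rw [h, DM, if_pos rfl]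
      · have h' : P.val ≠ Q.val := fun h'' => h (Fin.ext h'')
        rw [if_neg h, MM, if_neg h']
    rw [hDeq] at hb
    have hb2 : below (WW A y) = (∏ q : Fin m, (y - q.val % 2).factorial) *
        Nat.card {c : Fin (XX y m) → Fin m //
          (∀ q, Nat.card {s // c s = q} = Nat.card {s // β s = q}) ∧ Dom D (off β c)} := by
      have hpr : (∏ q : Fin m, (XX y (q.val + 1) - XX y q.val).factorial) =
          ∏ q : Fin m, (y - q.val % 2).factorial := prod_congr rfl fun q _ => by rw [hsz q]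
      rw [hpr] at hb
      exact hb
    rw [TT, hb2, Nat.mul_div_cancel_left _ (prod_pos fun q _ => Nat.factorial_pos _)]
    exact hP y (by omega) _ β (fun p => by rw [hβ p, hsz p])
  -- extrapolation
  set T : ℕ → ℕ := fun t => if t = 0 then F A else TT A (1 + t * KB A) with hT
  have h3 := extrapolate P d (KB A) (hPd.trans hdd) T (by
    intro t _
    by_cases h : t = 0
    · subst h
      simp only [hT, if_true, h1]
      simp
    · simp only [hT, if_neg h]
      exact h2 t (by omega))
  have h4 : T 0 = F A := by simp [hT]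
  rw [h4] at h3
  rw [h3]
  congr 1
  · refine sum_congr rfl fun t _ => ?_
    by_cases h : t % 2 = 1
    · rw [if_pos h, if_pos h, hT]
      simp only
      rw [if_neg (by omega)]
    · rw [if_neg h, if_neg h]
  · refine sum_congr rfl fun t _ => ?_
    by_cases h : t % 2 = 0 ∧ t ≠ 0
    · rw [if_pos h, if_pos h, hT]
      simp only
      rw [if_neg h.2]
    · rw [if_neg h, if_neg h]

end Pool.Agent.TH925.BR
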