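import Pool.Agent.TH925.BR.Defs

/-!
# The Bruhat order and the comparison of rank functions
-/

namespace Pool.Agent.TH925.BR

open Finset

theorem JA_ne {n : ℕ} (u : Equiv.Perm (Fin n)) {i j k : Fin n} (h1 : k ≠ i) (h2 : k ≠ j) :
    (u * Equiv.swap i j) k = u k := by
  rw [Equiv.Perm.mul_apply, Equiv.swap_apply_of_ne_of_ne h1 h2]

theorem JA_left {n : ℕ} (u : Equiv.Perm (Fin n)) (i j : Fin n) :
    (u * Equiv.swap i j) i = u j := by
  rw [Equiv.Perm.mul_apply, Equiv.swap_apply_left]

theorem JA_right {n : ℕ} (u : Equiv.Perm (Fin n)) (i j : Fin n) :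
    (u * Equiv.swap i j) j = u i := by
  rw [Equiv.Perm.mul_apply, Equiv.swap_apply_right]

/-- for `p` to the right of both positions the rank does not change -/
theorem JA_big {n : ℕ} (u : Equiv.Perm (Fin n)) {i j : Fin n} (hij : i < j) {p q : ℕ}
    (hp : j.val < p) : rk (u * Equiv.swap i j) p q = rk u p q := by
  have hi : i.val < p := lt_trans hij hp
  unfold rk
  refine Finset.card_bij (fun k _ => Equiv.swap i j k) ?_ ?_ ?_
  · intro k hk
    rw [mem_filter] at hk ⊢
    refine ⟨mem_univ _, ?_, ?_⟩
    · by_cases h1 : k = i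
      · rw [h1, Equiv.swap_apply_left]; exact hp
      · by_cases h2 : k = j
        · rw [h2, Equiv.swap_apply_right]; exact hi
        · rw [Equiv.swap_apply_of_ne_of_ne h1 h2]; exact hk.2.1
    · exact hk.2.2
  · intro k _ k' _ h
    exact (Equiv.swap i j).injective h
  · intro k hk
    rw [mem_filter] at hk
    refine ⟨Equiv.swap i j k, ?_, by simp⟩
    rw [mem_filter]
    refine ⟨mem_univ _, ?_, ?_⟩
    · by_cases h1 : k = i
      · rw [h1, Equiv.swap_apply_left]; exact hp
      · by_cases h2 : k = j
        · rw [h2, Equiv.swap_apply_right]; exact hi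
        · rw [Equiv.swap_apply_of_ne_of_ne h1 h2]; exact hk.2.1
    · rw [Equiv.Perm.mul_apply, Equiv.swap_apply_self]
      exact hk.2.2

/-- one step upwards increases the rank function -/
theorem JA_step {n : ℕ} (u : Equiv.Perm (Fin n)) {i j : Fin n} (hij : i < j) (hu : u i < u j)
    (p q : ℕ) : rk u p q ≤ rk (u * Equiv.swap i j) p q := by
  by_cases hp : j.val < p
  · exact (JA_big u hij hp).ge
  · unfold rk
    refine Finset.card_le_card fun k hk => ?_
    rw [mem_filter] at hk ⊢
    refine ⟨mem_univ _, hk.2.1, ?_⟩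
    have h2 : k ≠ j := by
      intro h
      rw [h] at hk
      exact hp hk.2.1
    by_cases h1 : k = i
    · rw [h1, JA_left]
      have h3 := hk.2.2
      rw [h1] at h3
      exact h3.trans (Fin.le_def.1 hu.le)
    · rw [JA_ne u h1 h2]
      exact hk.2.2

theorem JA_le {n : ℕ} {u v : Equiv.Perm (Fin n)} (h : Bruhat u v) (p q : ℕ) :
    rk u p q ≤ rk v p q := by
  induction h with
  | refl => exact le_rfl
  | tail _ hs ih =>
    obtain ⟨i, j, hij, hu, rfl⟩ := hs
    exact ih.trans (JA_step _ hij hu p q)

/-- the rank changes only in a rectangle -/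
theorem JA_same {n : ℕ} (u : Equiv.Perm (Fin n)) {a b : Fin n} (hab : a < b) (p q : ℕ)
    (h : ¬ (a.val < p ∧ p ≤ b.val ∧ (u a).val < q ∧ q ≤ (u b).val)) :
    rk (u * Equiv.swap a b) p q ≤ rk u p q := by
  by_cases hp : b.val < p
  · exact (JA_big u hab hp).le
  · unfold rk
    refine Finset.card_le_card fun k hk => ?_
    rw [mem_filter] at hk ⊢
    refine ⟨mem_univ _, hk.2.1, ?_⟩
    have h2 : k ≠ b := by
      intro h
      rw [h] at hk
      exact hp hk.2.1
    by_cases h1 : k = a
    · have h3 := hk.2.2
      rw [h1, JA_left] at h3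
      rw [h1]
      by_contra h4
      push Not at h4
      exact h ⟨h1 ▸ hk.2.1, not_lt.1 hp, h4, h3⟩
    · have h3 := hk.2.2
      rw [JA_ne u h1 h2] at h3
      exact h3

theorem JA_one {n : ℕ} (u : Equiv.Perm (Fin n)) {a b : Fin n} (p q : ℕ) (hp : p ≤ b.val) :
    rk (u * Equiv.swap a b) p q ≤ rk u p q + 1 := by
  classical
  unfold rk
  refine le_trans (Finset.card_le_card (t := insert a
    (univ.filter fun k : Fin n => k.val < p ∧ q ≤ (u k).val)) fun k hk => ?_)
    (Finset.card_insert_le _ _)
  rw [mem_filter] at hk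
  rw [mem_insert, mem_filter]
  have h2 : k ≠ b := by
    intro h
    rw [h] at hk
    exact absurd hk.2.1 (not_lt.2 hp)
  by_cases h1 : k = a
  · exact Or.inl h1
  · right
    have h3 := hk.2.2
    rw [JA_ne u h1 h2] at h3
    exact ⟨mem_univ _, hk.2.1, h3⟩

/-- total rank -/
def JA_tot {n : ℕ} (u : Equiv.Perm (Fin n)) : ℕ :=
  ∑ p ∈ range (n + 1), ∑ q ∈ range (n + 1), rk u p q

theorem JA_tot_le {n : ℕ} {u v : Equiv.Perm (Fin n)} (h : ∀ p q : ℕ, rk u p q ≤ rk v p q) :
    JA_tot u ≤ JA_tot v :=
  Finset.sum_le_sum fun p _ => Finset.sum_le_sum fun q _ => h p q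

theorem JA_tot_lt {n : ℕ} (u : Equiv.Perm (Fin n)) {a b : Fin n} (hab : a < b) (hu : u a < u b) :
    JA_tot u < JA_tot (u * Equiv.swap a b) := by
  classical
  have key : rk u (a.val + 1) (u b).val < rk (u * Equiv.swap a b) (a.val + 1) (u b).val := by
    unfold rk
    refine Finset.card_lt_card ⟨fun k hk => ?_, fun hsub => ?_⟩
    · rw [mem_filter] at hk ⊢
      have h2 : k ≠ b := by
        intro h
        rw [h] at hk
        have h3 : b.val < a.val + 1 := hk.2.1
        have h4 : a.val < b.val := hab
        omega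
      have h1 : k ≠ a := by
        intro h
        rw [h] at hk
        have h3 : (u b).val ≤ (u a).val := hk.2.2
        have h4 : (u a).val < (u b).val := hu
        omega
      rw [JA_ne u h1 h2]
      exact hk
    · have h1 : a ∈ univ.filter fun k : Fin n => k.val < a.val + 1 ∧
          (u b).val ≤ ((u * Equiv.swap a b) k).val := by
        rw [mem_filter, JA_left]
        exact ⟨mem_univ _, Nat.lt_succ_self _, le_rfl⟩
      have h2 := hsub h1
      rw [mem_filter] at h2
      have h3 : (u b).val ≤ (u a).val := h2.2.2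
      have h4 : (u a).val < (u b).val := hu
      omega
  have hle : ∀ p q, rk u p q ≤ rk (u * Equiv.swap a b) p q := JA_step u hab hu
  refine Finset.sum_lt_sum (fun p _ => Finset.sum_le_sum fun q _ => hle p q)
    ⟨a.val + 1, mem_range.2 (by have := a.2; omega), ?_⟩
  exact Finset.sum_lt_sum (fun q _ => hle _ q)
    ⟨(u b).val, mem_range.2 (by have := (u b).2; omega), key⟩

/-- the main step -/
theorem JA_exists {n : ℕ} (u v : Equiv.Perm (Fin n)) (hne : u ≠ v)
    (h : ∀ p q : ℕ, rk u p q ≤ rk v p q) :
    ∃ a b : Fin n, a < b ∧ u a < u b ∧ ∀ p q : ℕ, rk (u * Equiv.swap a b) p q ≤ rk v p q := by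
  classical
  -- the first difference
  have hex : (univ.filter fun k : Fin n => u k ≠ v k).Nonempty := by
    by_contra hcon
    rw [Finset.not_nonempty_iff_eq_empty, Finset.filter_eq_empty_iff] at hcon
    apply hne
    ext k
    have := hcon (mem_univ k)
    push Not at this
    rw [this]
  obtain ⟨a, ha, hamin⟩ := Finset.exists_min_image _ (fun k : Fin n => k) hex
  rw [mem_filter] at ha
  have hane := ha.2
  have hagree : ∀ k : Fin n, k < a → u k = v k := by
    intro k hk
    by_contra hcon
    exact absurd (hamin k (mem_filter.2 ⟨mem_univ _, hcon⟩)) (not_le.2 hk)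
  have hlt : u a < v a := by
    rcases lt_trichotomy (u a) (v a) with h1 | h1 | h1
    · exact h1
    · exact absurd h1 hane
    · exfalso
      have h2 := h (a.val + 1) (u a).val
      have h3 : rk v (a.val + 1) (u a).val < rk u (a.val + 1) (u a).val := by
        unfold rk
        refine Finset.card_lt_card ⟨fun k hk => ?_, fun hsub => ?_⟩
        · rw [mem_filter] at hk ⊢
          have h4 : k ≠ a := by
            intro h5
            rw [h5] at hk
            have h6 : (u a).val ≤ (v a).val := hk.2.2
            have h7 : (v a).val < (u a).val := h1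
            omega
          have h5 : k < a := lt_of_le_of_ne (Fin.le_def.2 (by have := hk.2.1; omega)) h4
          rw [hagree k h5]
          exact hk
        · have h4 : a ∈ univ.filter fun k : Fin n => k.val < a.val + 1 ∧
              (u a).val ≤ (u k).val :=
            mem_filter.2 ⟨mem_univ _, Nat.lt_succ_self _, le_rfl⟩
          have h5 := hsub h4
          rw [mem_filter] at h5
          have h6 : (u a).val ≤ (v a).val := h5.2.2
          have h7 : (v a).val < (u a).val := h1
          omega
      omega
  -- the partner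
  have hbex : (univ.filter fun k : Fin n => a < k ∧ u a < u k ∧ u k ≤ v a).Nonempty := by
    refine ⟨u.symm (v a), mem_filter.2 ⟨mem_univ _, ?_, ?_, ?_⟩⟩
    · rcases lt_trichotomy a (u.symm (v a)) with h1 | h1 | h1
      · exact h1
      · exfalso
        apply hane
        rw [← Equiv.apply_symm_apply u (v a), ← h1]
      · exfalso
        have h2 := hagree _ h1
        rw [Equiv.apply_symm_apply] at h2
        have h3 := v.injective h2
        rw [← h3] at h1
        exact lt_irrefl _ h1
    · rw [Equiv.apply_symm_apply]; exact hlt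
    · rw [Equiv.apply_symm_apply]
  obtain ⟨b, hb, hbmin⟩ := Finset.exists_min_image _ (fun k : Fin n => k) hbex
  rw [mem_filter] at hb
  obtain ⟨-, hab, hub, hubv⟩ := hb
  have hbetween : ∀ k : Fin n, a < k → k < b → ¬ (u a < u k ∧ u k ≤ v a) := by
    intro k h1 h2 h3
    exact absurd (hbmin k (mem_filter.2 ⟨mem_univ _, h1, h3.1, h3.2⟩)) (not_le.2 h2)
  refine ⟨a, b, hab, hub, fun p q => ?_⟩
  by_cases hrect : a.val < p ∧ p ≤ b.val ∧ (u a).val < q ∧ q ≤ (u b).val
  · obtain ⟨r1, r2, r3, r4⟩ := hrect
    refine (JA_one u p q r2).trans ?_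
    have r5 : (u b).val ≤ (v a).val := hubv
    -- upper bound for `u`
    have hU : rk u p q ≤ rk u p ((v a).val + 1) +
        (univ.filter fun k : Fin n => k < a ∧ q ≤ (u k).val ∧ (u k).val ≤ (v a).val).card := by
      unfold rk
      refine le_trans (Finset.card_le_card (t := (univ.filter fun k : Fin n => k.val < p ∧
        (v a).val + 1 ≤ (u k).val) ∪ (univ.filter fun k : Fin n => k < a ∧ q ≤ (u k).val ∧
        (u k).val ≤ (v a).val)) fun k hk => ?_) (Finset.card_union_le _ _)
      rw [mem_filter] at hk
      rw [mem_union, mem_filter, mem_filter]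
      by_cases h1 : (v a).val + 1 ≤ (u k).val
      · exact Or.inl ⟨mem_univ _, hk.2.1, h1⟩
      · right
        refine ⟨mem_univ _, ?_, hk.2.2, by omega⟩
        rcases lt_trichotomy k a with h2 | h2 | h2
        · exact h2
        · exfalso
          rw [h2] at hk
          have := hk.2.2
          omega
        · exfalso
          have h3 : k < b := Fin.lt_def.2 (by have := hk.2.1; omega)
          refine hbetween k h2 h3 ⟨Fin.lt_def.2 ?_, Fin.le_def.2 (by omega)⟩
          have := hk.2.2
          omega
    -- lower bound for `v`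
    have hV : rk v p ((v a).val + 1) +
        ((univ.filter fun k : Fin n => k < a ∧ q ≤ (v k).val ∧ (v k).val ≤ (v a).val).card + 1) ≤
        rk v p q := by
      have ha' : a ∉ univ.filter fun k : Fin n => k < a ∧ q ≤ (v k).val ∧ (v k).val ≤ (v a).val := by
        intro h1
        rw [mem_filter] at h1
        exact lt_irrefl _ h1.2.1
      rw [← Finset.card_insert_of_notMem ha']
      unfold rk
      rw [← Finset.card_union_of_disjoint]
      · refine Finset.card_le_card fun k hk => ?_
        rw [mem_union, mem_filter, mem_insert, mem_filter] at hk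
        rw [mem_filter]
        refine ⟨mem_univ _, ?_⟩
        rcases hk with hk | hk | hk
        · exact ⟨hk.2.1, by have := hk.2.2; omega⟩
        · rw [hk]; exact ⟨r1, by omega⟩
        · have h1 : k.val < a.val := hk.2.1
          exact ⟨by omega, hk.2.2.1⟩
      · rw [Finset.disjoint_left]
        intro k hk hk2
        rw [mem_filter] at hk
        rw [mem_insert, mem_filter] at hk2
        have h1 := hk.2.2
        rcases hk2 with h2 | h2
        · rw [h2] at h1; omega
        · have := h2.2.2.2
          omega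
    have hUV : (univ.filter fun k : Fin n => k < a ∧ q ≤ (u k).val ∧ (u k).val ≤ (v a).val) =
        univ.filter fun k : Fin n => k < a ∧ q ≤ (v k).val ∧ (v k).val ≤ (v a).val := by
      refine Finset.filter_congr fun k _ => ?_
      constructor
      · rintro ⟨h1, h2⟩
        rw [hagree k h1] at h2
        exact ⟨h1, h2⟩
      · rintro ⟨h1, h2⟩
        rw [← hagree k h1] at h2
        exact ⟨h1, h2⟩
    rw [hUV] at hU
    have h5 := h p ((v a).val + 1)
    omega
  · exact (JA_same u hab p q hrect).trans (h p q)

theorem JA_ge {n : ℕ} : ∀ (N : ℕ) (u v : Equiv.Perm (Fin n)), JA_tot v - JA_tot u ≤ N →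
    (∀ p q : ℕ, rk u p q ≤ rk v p q) → Bruhat u v := by
  intro N
  induction N with
  | zero =>
    intro u v hN h
    by_cases hne : u = v
    · rw [hne]; exact Relation.ReflTransGen.refl
    · exfalso
      obtain ⟨a, b, hab, hub, h'⟩ := JA_exists u v hne h
      have h1 := JA_tot_lt u hab hub
      have h2 := JA_tot_le h'
      omega
  | succ N ih =>
    intro u v hN h
    by_cases hne : u = v
    · rw [hne]; exact Relation.ReflTransGen.refl
    · obtain ⟨a, b, hab, hub, h'⟩ := JA_exists u v hne h
      have h1 := JA_tot_lt u hab hub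
      have h2 := JA_tot_le h'
      refine Relation.ReflTransGen.head ⟨a, b, hab, hub, rfl⟩ (ih _ v ?_ h')
      omega

theorem bruhat_iff {n : ℕ} (u v : Equiv.Perm (Fin n)) :
    Bruhat u v ↔ ∀ p q : ℕ, rk u p q ≤ rk v p q :=
  ⟨fun h p q => JA_le h p q, fun h => JA_ge _ u v le_rfl h⟩

end Pool.Agent.TH925.BR
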