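import Pool.Agent.TH925.BR.RDefs
import Pool.Agent.TH925.SI.Red

/-!
# Counting the permutations below a given one in the Bruhat order is in `#P`
-/

namespace Pool.Agent.TH925.BR

open Finset Pool.Agent.H549R2.Convex Pool.Agent.NPC Pool.Agent.NPC.Cnt

/-- rank counts of a list -/
def JM_cnt (c : List ℕ) (p q : ℕ) : ℕ :=
  ((List.range c.length).filter fun k => decide (k < p) && decide (q ≤ c.getD k 0)).length

/-- test for being the one-line notation of a permutation -/
def JM_perm (c : List ℕ) : Bool :=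
  (List.range c.length).all fun i => decide (c.getD i 0 < c.length) &&
    (List.range c.length).all fun j => decide (i = j) || !(decide (c.getD i 0 = c.getD j 0))

/-- comparison of the rank counts -/
def JM_le (l c : List ℕ) : Bool :=
  (List.range l.length).all fun p => (List.range l.length).all fun q =>
    decide (JM_cnt c (p + 1) q ≤ JM_cnt l (p + 1) q)

/-- test of a certificate -/
def JM_cert (l c : List ℕ) : Bool :=
  decide (c.length = l.length) && (JM_perm l && (JM_perm c && JM_le l c))

theorem JM_cnt_poly {α : Type} [TEnc α] {c : α → List ℕ} {p q : α → ℕ} (hc : Poly c) (hp : Poly p)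
    (hq : Poly q) : Poly (fun a => JM_cnt (c a) (p a) (q a)) := by
  refine Poly.length (Poly.filter
    (p := fun a k => decide (k < p a) && decide (q a ≤ (c a).getD k 0)) (Poly.range_length hc) ?_)
  have h1 : Poly (fun x : α × ℕ => x.1) := Poly.fst Poly.id
  have h2 : Poly (fun x : α × ℕ => x.2) := Poly.snd Poly.id
  exact Poly.and (Poly.decide_lt h2 (hp.comp h1)) (Poly.decide_le (hq.comp h1)
    (Poly.getD (hc.comp h1) h2 (NPC.Poly.const 0)))

theorem JM_perm_poly {α : Type} [TEnc α] {c : α → List ℕ} (hc : Poly c) :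
    Poly (fun a => JM_perm (c a)) := by
  have h1 : Poly (fun x : α × ℕ => x.1) := Poly.fst Poly.id
  have h2 : Poly (fun x : α × ℕ => x.2) := Poly.snd Poly.id
  refine Poly.all (p := fun a i => decide ((c a).getD i 0 < (c a).length) &&
    (List.range (c a).length).all fun j => decide (i = j) ||
      !(decide ((c a).getD i 0 = (c a).getD j 0))) (Poly.range_length hc) ?_
  refine Poly.and (Poly.decide_lt (Poly.getD (hc.comp h1) h2 (NPC.Poly.const 0))
    (Poly.length (hc.comp h1))) ?_
  refine Poly.all (p := fun (x : α × ℕ) j => decide (x.2 = j) ||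
      !(decide ((c x.1).getD x.2 0 = (c x.1).getD j 0))) (Poly.range_length (hc.comp h1)) ?_
  have h3 : Poly (fun x : (α × ℕ) × ℕ => x.1.1) := Poly.fst (Poly.fst Poly.id)
  have h4 : Poly (fun x : (α × ℕ) × ℕ => x.1.2) := Poly.snd (Poly.fst Poly.id)
  have h5 : Poly (fun x : (α × ℕ) × ℕ => x.2) := Poly.snd Poly.id
  exact Poly.or (Poly.decide_eq h4 h5) (Poly.not (Poly.decide_eq
    (Poly.getD (hc.comp h3) h4 (NPC.Poly.const 0)) (Poly.getD (hc.comp h3) h5 (NPC.Poly.const 0))))

theorem JM_cert_poly : Poly (fun x : List ℕ × List ℕ => JM_cert x.1 x.2) := by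
  have hl : Poly (fun x : List ℕ × List ℕ => x.1) := Poly.fst Poly.id
  have hc : Poly (fun x : List ℕ × List ℕ => x.2) := Poly.snd Poly.id
  refine Poly.and (Poly.decide_eq (Poly.length hc) (Poly.length hl))
    (Poly.and (JM_perm_poly hl) (Poly.and (JM_perm_poly hc) ?_))
  refine Poly.all (p := fun (x : List ℕ × List ℕ) p => (List.range x.1.length).all fun q =>
    decide (JM_cnt x.2 (p + 1) q ≤ JM_cnt x.1 (p + 1) q)) (Poly.range_length hl) ?_
  have hl1 : Poly (fun x : (List ℕ × List ℕ) × ℕ => x.1.1) := Poly.fst (Poly.fst Poly.id)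
  refine Poly.all (p := fun (x : (List ℕ × List ℕ) × ℕ) q =>
    decide (JM_cnt x.1.2 (x.2 + 1) q ≤ JM_cnt x.1.1 (x.2 + 1) q)) (Poly.range_length hl1) ?_
  have h1 : Poly (fun x : ((List ℕ × List ℕ) × ℕ) × ℕ => x.1.1.1) :=
    Poly.fst (Poly.fst (Poly.fst Poly.id))
  have h2 : Poly (fun x : ((List ℕ × List ℕ) × ℕ) × ℕ => x.1.1.2) :=
    Poly.snd (Poly.fst (Poly.fst Poly.id))
  have h3 : Poly (fun x : ((List ℕ × List ℕ) × ℕ) × ℕ => x.1.2 + 1) :=
    Poly.succ (Poly.snd (Poly.fst Poly.id))
  have h4 : Poly (fun x : ((List ℕ × List ℕ) × ℕ) × ℕ => x.2) := Poly.snd Poly.id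
  exact Poly.decide_le (JM_cnt_poly h2 h3 h4) (JM_cnt_poly h1 h3 h4)

/-- the one-line notation -/
def JM_ofFn {n : ℕ} (w : Equiv.Perm (Fin n)) : List ℕ := List.ofFn fun k => (w k).val

theorem JM_ofFn_inj {n : ℕ} {v w : Equiv.Perm (Fin n)} (h : JM_ofFn v = JM_ofFn w) : v = w := by
  have h1 := List.ofFn_injective h
  apply Equiv.ext
  intro k
  exact Fin.ext (congrFun h1 k)

theorem JM_getD {n : ℕ} (w : Equiv.Perm (Fin n)) (k : ℕ) (hk : k < n) :
    (JM_ofFn w).getD k 0 = (w ⟨k, hk⟩).val := by
  have h : k < (JM_ofFn w).length := by rw [JM_ofFn, List.length_ofFn]; exact hk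
  rw [List.getD_eq_getElem _ _ h]
  simp only [JM_ofFn, List.getElem_ofFn]

theorem JM_perm_iff (n : ℕ) (c : List ℕ) (hn : c.length = n) : JM_perm c = true ↔
    ∃ w : Equiv.Perm (Fin n), c = JM_ofFn w := by
  subst hn
  constructor
  · intro h
    simp only [JM_perm, List.all_eq_true, List.mem_range, Bool.and_eq_true, Bool.or_eq_true,
      decide_eq_true_eq, Bool.not_eq_true', decide_eq_false_iff_not] at h
    have hg : ∀ k (hk : k < c.length), c.getD k 0 = (c)[k] := fun k hk =>
      List.getD_eq_getElem _ _ hk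
    have hinj : Function.Injective (fun k : Fin c.length =>
        (⟨c.getD k.val 0, (h k.val k.2).1⟩ : Fin c.length)) := by
      intro i j hij
      have h1 : c.getD i.val 0 = c.getD j.val 0 := congrArg Fin.val hij
      rcases (h i.val i.2).2 j.val j.2 with h2 | h2
      · exact Fin.ext h2
      · exact absurd h1 h2
    refine ⟨Equiv.ofBijective _ (Finite.injective_iff_bijective.1 hinj), ?_⟩
    apply List.ext_getElem
    · rw [JM_ofFn, List.length_ofFn]
    · intro i h1 h2
      simp only [JM_ofFn, List.getElem_ofFn]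
      exact (hg i h1).symm
  · rintro ⟨w, hw⟩
    simp only [JM_perm, List.all_eq_true, List.mem_range, Bool.and_eq_true, Bool.or_eq_true,
      decide_eq_true_eq, Bool.not_eq_true', decide_eq_false_iff_not]
    have hg : ∀ k (hk : k < c.length), c.getD k 0 = (w ⟨k, hk⟩).val := fun k hk => by
      conv_lhs => rw [hw]
      exact JM_getD w k hk
    intro i hi
    rw [hg i hi]
    refine ⟨(w _).2, fun j hj => ?_⟩
    rw [hg j hj]
    by_cases hij : i = j
    · exact Or.inl hij
    · right
      intro h
      apply hij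
      have h1 := w.injective (Fin.ext h)
      exact congrArg Fin.val h1

theorem JM_cnt_eq {n : ℕ} (w : Equiv.Perm (Fin n)) (p q : ℕ) :
    JM_cnt (JM_ofFn w) p q = rk w p q := by
  have hlen : (JM_ofFn w).length = n := by rw [JM_ofFn, List.length_ofFn]
  rw [JM_cnt, hlen, rk]
  have h1 : ((List.range n).filter fun k =>
      decide (k < p) && decide (q ≤ (JM_ofFn w).getD k 0)).Nodup :=
    List.Nodup.filter _ List.nodup_range
  rw [← List.toFinset_card_of_nodup h1]
  symm
  refine Finset.card_bij (fun k _ => k.val) ?_ ?_ ?_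
  · intro k hk
    rw [mem_filter] at hk
    rw [List.mem_toFinset, List.mem_filter, List.mem_range, Bool.and_eq_true, decide_eq_true_eq,
      decide_eq_true_eq, JM_getD w k.val k.2]
    exact ⟨k.2, hk.2.1, hk.2.2⟩
  · intro a _ b _ hab
    exact Fin.ext hab
  · intro k hk
    rw [List.mem_toFinset, List.mem_filter, List.mem_range, Bool.and_eq_true, decide_eq_true_eq,
      decide_eq_true_eq] at hk
    obtain ⟨hkn, hkp, hkq⟩ := hk
    rw [JM_getD w k hkn] at hkq
    exact ⟨⟨k, hkn⟩, by rw [mem_filter]; exact ⟨mem_univ _, hkp, hkq⟩, rfl⟩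

/-- only finitely many ranks need to be compared -/
theorem JM_rk_le {n : ℕ} (v w : Equiv.Perm (Fin n)) :
    (∀ p q : ℕ, rk v p q ≤ rk w p q) ↔ ∀ p < n, ∀ q < n, rk v (p + 1) q ≤ rk w (p + 1) q := by
  constructor
  · intro h p _ q _
    exact h _ _
  · intro h
    have key : ∀ p ≤ n, ∀ q, rk v p q ≤ rk w p q := by
      intro p hp q
      rcases Nat.lt_or_ge q n with hq | hq
      · rcases p with _ | p
        · have : rk v 0 q = 0 := by
            rw [rk, card_eq_zero, filter_eq_empty_iff]
            intro k _ hk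
            omega
          omega
        · exact h p (by omega) q hq
      · have : rk v p q = 0 := by
          rw [rk, card_eq_zero, filter_eq_empty_iff]
          intro k _ hk
          have := (v k).2
          omega
        omega
    intro p q
    rcases Nat.lt_or_ge n p with hp | hp
    · have e : ∀ u : Equiv.Perm (Fin n), rk u p q = rk u n q := by
        intro u
        rw [rk, rk]
        congr 1
        apply Finset.filter_congr
        intro k _
        have := k.2
        constructor
        · rintro ⟨_, h2⟩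
          exact ⟨this, h2⟩
        · rintro ⟨_, h2⟩
          exact ⟨by omega, h2⟩
      rw [e, e]
      exact key n le_rfl q
    · exact key p hp q

theorem JM_cert_iff (l c : List ℕ) : JM_cert l c = true ↔
    ∃ v w : Equiv.Perm (Fin l.length), c = JM_ofFn v ∧ l = JM_ofFn w ∧
      ∀ p q : ℕ, rk v p q ≤ rk w p q := by
  rw [JM_cert, Bool.and_eq_true, Bool.and_eq_true, Bool.and_eq_true, decide_eq_true_eq]
  have hle : ∀ v w : Equiv.Perm (Fin l.length), c = JM_ofFn v → l = JM_ofFn w →
      (JM_le l c = true ↔ ∀ p q : ℕ, rk v p q ≤ rk w p q) := by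
    intro v w hv hw
    rw [JM_rk_le]
    simp only [JM_le, List.all_eq_true, List.mem_range, decide_eq_true_eq]
    have e1 : ∀ p q, JM_cnt c p q = rk v p q := fun p q => by rw [hv, JM_cnt_eq]
    have e2 : ∀ p q, JM_cnt l p q = rk w p q := fun p q => by
      have := JM_cnt_eq w p q
      rw [← hw] at this
      exact this
    simp only [e1, e2]
  constructor
  · rintro ⟨h1, h2, h3, h4⟩
    obtain ⟨w, hw⟩ := (JM_perm_iff l.length l rfl).1 h2
    obtain ⟨v, hv⟩ := (JM_perm_iff l.length c h1).1 h3
    exact ⟨v, w, hv, hw, (hle v w hv hw).1 h4⟩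
  · rintro ⟨v, w, hv, hw, h⟩
    have h1 : c.length = l.length := by rw [hv, JM_ofFn, List.length_ofFn]
    exact ⟨h1, (JM_perm_iff l.length l rfl).2 ⟨w, hw⟩, (JM_perm_iff l.length c h1).2 ⟨v, hv⟩,
      (hle v w hv hw).2 h⟩

theorem JM_card (hb : ∀ (n : ℕ) (u v : Equiv.Perm (Fin n)),
    Bruhat u v ↔ ∀ p q : ℕ, rk u p q ≤ rk v p q) (l : List ℕ) :
    Nat.card {c : List ℕ // JM_cert l c = true} = below l := by
  rw [below]
  symm
  refine Nat.card_congr (Equiv.ofBijective
    (fun f : {v : Equiv.Perm (Fin l.length) //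
      ∃ w : Equiv.Perm (Fin l.length), l = List.ofFn (fun k => (w k).val) ∧ Bruhat v w} =>
      (⟨JM_ofFn f.1, ?_⟩ : {c : List ℕ // JM_cert l c = true})) ⟨?_, ?_⟩)
  · rw [JM_cert_iff]
    obtain ⟨w, hw, hv⟩ := f.2
    exact ⟨f.1, w, rfl, hw, (hb _ _ _).1 hv⟩
  · intro f g h
    apply Subtype.ext
    exact JM_ofFn_inj (congrArg Subtype.val h)
  · rintro ⟨c, hc⟩
    obtain ⟨v, w, hv, hw, h⟩ := (JM_cert_iff l c).1 hc
    refine ⟨⟨v, w, hw, (hb _ _ _).2 h⟩, ?_⟩
    apply Subtype.ext
    exact hv.symm

theorem sharpP_below (hb : ∀ (n : ℕ) (u v : Equiv.Perm (Fin n)),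
    Bruhat u v ↔ ∀ p q : ℕ, rk u p q ≤ rk v p q) : SharpP (strFn below) := by
  have h := sharpP_typed JM_cert JM_cert_poly
    (Polynomial.X * (Polynomial.C 4 * Polynomial.X + Polynomial.C 2) + Polynomial.C 1) ?_
  · have e : (fun l : List ℕ => Nat.card {c : List ℕ // JM_cert l c = true}) = below :=
      funext (JM_card hb)
    rw [e] at h
    exact h
  · intro l c hc
    obtain ⟨v, w, hv, hw, _⟩ := (JM_cert_iff l c).1 hc
    have hlen : c.length = l.length := by rw [hv, JM_ofFn, List.length_ofFn]
    have h1 : ∀ a ∈ c, sz a ≤ 4 * l.length + 1 := by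
      intro a ha
      rw [hv, JM_ofFn, List.mem_ofFn] at ha
      obtain ⟨k, rfl⟩ := ha
      have h3 := sz_nat_le (v k).val
      have h4 : ((v k).val).size ≤ (v k).val := Nat.size_le.2 Nat.lt_two_pow_self
      have h5 := (v k).2
      omega
    have h2 := sz_le_length_mul c _ h1
    have h3 := length_lt_sz l
    simp only [Polynomial.eval_add, Polynomial.eval_mul, Polynomial.eval_X, Polynomial.eval_C]
    have h4 : c.length * (4 * l.length + 1 + 1) ≤ sz l * (4 * sz l + 2) :=
      Nat.mul_le_mul (by omega) (by omega)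
    omega

theorem below_size (l : List ℕ) : (below l).size ≤ l.length * l.length + 1 := by
  have h1 : below l ≤ l.length ^ l.length := by
    rw [below]
    have h2 : Nat.card {v : Equiv.Perm (Fin l.length) //
        ∃ w : Equiv.Perm (Fin l.length), l = List.ofFn (fun k => (w k).val) ∧ Bruhat v w} ≤
        Nat.card (Fin l.length → Fin l.length) :=
      Nat.card_le_card_of_injective (fun f => (fun k => f.1 k)) (by
        intro f g h
        apply Subtype.ext
        apply Equiv.ext
        intro k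
        exact congrFun h k)
    rw [Nat.card_eq_fintype_card (α := Fin l.length → Fin l.length), Fintype.card_fun,
      Fintype.card_fin] at h2
    exact h2
  have h3 : l.length ^ l.length ≤ (2 ^ l.length) ^ l.length :=
    Nat.pow_le_pow_left (Nat.lt_two_pow_self).le _
  rw [← pow_mul] at h3
  have h4 : 2 ^ (l.length * l.length) < 2 ^ (l.length * l.length + 1) :=
    Nat.pow_lt_pow_right (by norm_num) (by omega)
  rw [Nat.size_le]
  omega

end Pool.Agent.TH925.BR
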