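import Pool.Agent.TH925.BR.RDefs

/-!
# The queries of the reduction are computable in polynomial time
-/

namespace Pool.Agent.TH925.BR

open Finset Pool.Agent.H549R2.Convex Pool.Agent.H618R2.Skew Pool.Agent.NPC Pool.Agent.NPC.Cnt
open Pool.Agent.NPC.H549Convex (LL)
open Pool.Agent.NPC.H549Convex (ent_poly)

theorem JP_sumr (f : ℕ → ℕ) (n : ℕ) : ((List.range n).map f).sum = ∑ i ∈ range n, f i := by
  induction n with
  | zero => simp
  | succ n ih =>
    rw [List.range_succ, List.map_append, List.sum_append, ih, Finset.sum_range_succ]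
    simp

section

variable {α : Type} [TEnc α]

theorem JP_sum {n : α → ℕ} {g : α → ℕ → ℕ} (hn : UPoly n)
    (hg : Poly (fun p : α × ℕ => g p.1 p.2)) : Poly (fun a => ∑ i ∈ range (n a), g a i) :=
  (Poly.sum (NPC.Poly.map (F := g) hn.range hg)).congr fun _ => JP_sumr _ _

theorem JP_ent {A : α → LL} {i j : α → ℕ} (hA : Poly A) (hi : Poly i) (hj : Poly j) :
    Poly (fun a => ent (A a) (i a) (j a)) :=
  ent_poly.comp (f := fun a => (A a, i a, j a)) (Poly.pair hA (Poly.pair hi hj))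

theorem JP_upC {A : α → LL} {P : α → ℕ} (hA : Poly A) (hP : Poly P) :
    Poly (fun a => upC (A a) (P a)) := by
  unfold upC
  have h1 : Poly (fun x : α × ℕ => x.1) := Poly.fst Poly.id
  have h11 : Poly (fun x : (α × ℕ) × ℕ => x.1.1) := Poly.fst (Poly.fst Poly.id)
  have h12 : Poly (fun x : (α × ℕ) × ℕ => x.1.2) := Poly.snd (Poly.fst Poly.id)
  have h2 : Poly (fun x : (α × ℕ) × ℕ => x.2) := Poly.snd Poly.id
  refine JP_sum (g := fun a i => ∑ j ∈ range (A a).length,
    if 2 * i ≤ P a ∧ P a < 2 * j ∧ ent (A a) i j = true then 1 else 0) (UPoly.length hA) ?_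
  refine JP_sum (n := fun x : α × ℕ => (A x.1).length) (g := fun x j =>
    if 2 * x.2 ≤ P x.1 ∧ P x.1 < 2 * j ∧ ent (A x.1) x.2 j = true then 1 else 0)
    (UPoly.length (hA.comp h1)) ?_
  refine Poly.ite (p := fun x : (α × ℕ) × ℕ => 2 * x.1.2 ≤ P x.1.1 ∧ P x.1.1 < 2 * x.2 ∧
    ent (A x.1.1) x.1.2 x.2 = true) ?_ (NPC.Poly.const 1) (NPC.Poly.const 0)
  refine Poly.decide_and (p := fun x : (α × ℕ) × ℕ => 2 * x.1.2 ≤ P x.1.1)
    (q := fun x => P x.1.1 < 2 * x.2 ∧ ent (A x.1.1) x.1.2 x.2 = true)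
    (Poly.decide_le (Poly.mul (NPC.Poly.const 2) h12) (hP.comp h11)) ?_
  exact Poly.decide_and (p := fun x : (α × ℕ) × ℕ => P x.1.1 < 2 * x.2)
    (q := fun x => ent (A x.1.1) x.1.2 x.2 = true)
    (Poly.decide_lt (hP.comp h11) (Poly.mul (NPC.Poly.const 2) h2))
    (Poly.decide_bool (JP_ent (hA.comp h11) h12 h2))

theorem JP_dnC {A : α → LL} {P : α → ℕ} (hA : Poly A) (hP : Poly P) :
    Poly (fun a => dnC (A a) (P a)) := by
  unfold dnC
  have h1 : Poly (fun x : α × ℕ => x.1) := Poly.fst Poly.id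
  have h11 : Poly (fun x : (α × ℕ) × ℕ => x.1.1) := Poly.fst (Poly.fst Poly.id)
  have h12 : Poly (fun x : (α × ℕ) × ℕ => x.1.2) := Poly.snd (Poly.fst Poly.id)
  have h2 : Poly (fun x : (α × ℕ) × ℕ => x.2) := Poly.snd Poly.id
  refine JP_sum (g := fun a i => ∑ j ∈ range (A a).length,
    if 2 * j ≤ P a ∧ P a < 2 * i ∧ ent (A a) i j = true then 1 else 0) (UPoly.length hA) ?_
  refine JP_sum (n := fun x : α × ℕ => (A x.1).length) (g := fun x j =>
    if 2 * j ≤ P x.1 ∧ P x.1 < 2 * x.2 ∧ ent (A x.1) x.2 j = true then 1 else 0)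
    (UPoly.length (hA.comp h1)) ?_
  refine Poly.ite (p := fun x : (α × ℕ) × ℕ => 2 * x.2 ≤ P x.1.1 ∧ P x.1.1 < 2 * x.1.2 ∧
    ent (A x.1.1) x.1.2 x.2 = true) ?_ (NPC.Poly.const 1) (NPC.Poly.const 0)
  refine Poly.decide_and (p := fun x : (α × ℕ) × ℕ => 2 * x.2 ≤ P x.1.1)
    (q := fun x => P x.1.1 < 2 * x.1.2 ∧ ent (A x.1.1) x.1.2 x.2 = true)
    (Poly.decide_le (Poly.mul (NPC.Poly.const 2) h2) (hP.comp h11)) ?_
  exact Poly.decide_and (p := fun x : (α × ℕ) × ℕ => P x.1.1 < 2 * x.1.2)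
    (q := fun x => ent (A x.1.1) x.1.2 x.2 = true)
    (Poly.decide_lt (hP.comp h11) (Poly.mul (NPC.Poly.const 2) h12))
    (Poly.decide_bool (JP_ent (hA.comp h11) h12 h2))

theorem JP_DM {A : α → LL} {P Q : α → ℕ} (hA : Poly A) (hP : Poly P) (hQ : Poly Q) :
    Poly (fun a => DM (A a) (P a) (Q a)) := by
  unfold DM
  refine Poly.ite (p := fun a => P a = Q a) (Poly.decide_eq hP hQ) (NPC.Poly.const 0) ?_
  refine Poly.ite (p := fun a => P a % 2 = 0 ∧ Q a % 2 = 0) ?_ ?_ ?_
  · exact Poly.decide_and (p := fun a => P a % 2 = 0) (q := fun a => Q a % 2 = 0)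
      (Poly.decide_eq (Poly.mod hP (NPC.Poly.const 2)) (NPC.Poly.const 0))
      (Poly.decide_eq (Poly.mod hQ (NPC.Poly.const 2)) (NPC.Poly.const 0))
  · exact Poly.ite (p := fun a => ent (A a) (P a / 2) (Q a / 2) = true)
      (Poly.decide_bool (JP_ent hA (Poly.div hP (NPC.Poly.const 2)) (Poly.div hQ
        (NPC.Poly.const 2)))) (NPC.Poly.const 1) (NPC.Poly.const 0)
  · refine Poly.ite (p := fun a => Q a = P a + 1) (Poly.decide_eq hQ (Poly.succ hP))
      (JP_dnC hA hP) ?_
    exact Poly.ite (p := fun a => P a = Q a + 1) (Poly.decide_eq hP (Poly.succ hQ))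
      (JP_upC hA hQ) (NPC.Poly.const 0)

theorem JP_MM {A : α → LL} {y P Q : α → ℕ} (hA : Poly A) (hy : Poly y) (hP : Poly P)
    (hQ : Poly Q) : Poly (fun a => MM (A a) (y a) (P a) (Q a)) := by
  unfold MM
  refine Poly.ite (p := fun a => P a = Q a) (Poly.decide_eq hP hQ) ?_ (JP_DM hA hP hQ)
  refine Poly.sub (Poly.sub hy (Poly.mod hP (NPC.Poly.const 2))) ?_
  have h1 : Poly (fun x : α × ℕ => x.1) := Poly.fst Poly.id
  have h2 : Poly (fun x : α × ℕ => x.2) := Poly.snd Poly.id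
  exact JP_sum (g := fun a R => DM (A a) (P a) R) (UPoly.mul (UPoly.const 2) (UPoly.length hA))
    (JP_DM (hA.comp h1) (hP.comp h1) h2)

end

theorem JP_upC_le (A : LL) (P : ℕ) : upC A P ≤ A.length * A.length := by
  unfold upC
  calc _ ≤ ∑ i ∈ range A.length, ∑ j ∈ range A.length, 1 :=
        Finset.sum_le_sum fun i _ => Finset.sum_le_sum fun j _ => by split_ifs <;> omega
    _ = _ := by simp

theorem JP_dnC_le (A : LL) (P : ℕ) : dnC A P ≤ A.length * A.length := by
  unfold dnC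
  calc _ ≤ ∑ i ∈ range A.length, ∑ j ∈ range A.length, 1 :=
        Finset.sum_le_sum fun i _ => Finset.sum_le_sum fun j _ => by split_ifs <;> omega
    _ = _ := by simp

theorem JP_DM_le (A : LL) (P Q : ℕ) : DM A P Q ≤ A.length * A.length + 1 := by
  have h1 := JP_upC_le A Q
  have h2 := JP_dnC_le A P
  unfold DM
  split_ifs <;> omega

theorem JP_MM_le (A : LL) (y P Q : ℕ) : MM A y P Q ≤ y + (A.length * A.length + 1) := by
  have h1 := JP_DM_le A P Q
  unfold MM
  split_ifs <;> omega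

section

variable {α : Type} [TEnc α]

theorem JP_MM_u {A : α → LL} {y P Q : α → ℕ} (hA : Poly A) (hy : UPoly y) (hP : Poly P)
    (hQ : Poly Q) : UPoly (fun a => MM (A a) (y a) (P a) (Q a)) :=
  UPoly.of_le (JP_MM hA hy.toPoly hP hQ) (UPoly.add hy (UPoly.add (UPoly.mul (UPoly.length hA)
    (UPoly.length hA)) (UPoly.const 1))) fun _ => JP_MM_le _ _ _ _

theorem JP_XX {y P : α → ℕ} (hy : Poly y) (hP : Poly P) : Poly (fun a => XX (y a) (P a)) := by
  unfold XX
  exact Poly.add (Poly.mul (Poly.div hP (NPC.Poly.const 2)) (Poly.sub (Poly.mul (NPC.Poly.const 2)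
    hy) (NPC.Poly.const 1))) (Poly.mul (Poly.mod hP (NPC.Poly.const 2)) hy)

/-- the entries with row block `P` and column block `m - 1 - R` -/
def JP_f (A : LL) (y P R : ℕ) : List ℕ :=
  (List.range (MM A y P (2 * A.length - 1 - R))).map fun c =>
    XX y (2 * A.length - 1 - R + 1) - 1 - (∑ P' ∈ range (2 * A.length),
      if P' < P then MM A y P' (2 * A.length - 1 - R) else 0) - c

theorem JP_WW (A : LL) (y : ℕ) : WW A y = (List.range (2 * A.length)).flatMap fun P =>
    (List.range (2 * A.length)).flatMap fun R => JP_f A y P R := by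
  unfold WW wl
  refine List.flatMap_congr fun P hP => ?_
  rw [List.mem_range] at hP
  refine List.flatMap_congr fun R _ => ?_
  unfold JP_f
  have e : ∑ P' ∈ range P, MM A y P' (2 * A.length - 1 - R) = ∑ P' ∈ range (2 * A.length),
      if P' < P then MM A y P' (2 * A.length - 1 - R) else 0 := by
    rw [← Finset.sum_filter]
    apply Finset.sum_congr _ (fun _ _ => rfl)
    ext k
    rw [mem_filter, mem_range, mem_range]
    omega
  rw [e]

theorem JP_f_p {A : α → LL} {y P R : α → ℕ} (hA : Poly A) (hy : UPoly y) (hP : Poly P)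
    (hR : Poly R) : Poly (fun a => JP_f (A a) (y a) (P a) (R a)) := by
  have hm : UPoly (fun a => 2 * (A a).length) := UPoly.mul (UPoly.const 2) (UPoly.length hA)
  have hQ : Poly (fun a => 2 * (A a).length - 1 - R a) :=
    Poly.sub (Poly.sub hm.toPoly (NPC.Poly.const 1)) hR
  have h1 : Poly (fun x : α × ℕ => x.1) := Poly.fst Poly.id
  have h2 : Poly (fun x : α × ℕ => x.2) := Poly.snd Poly.id
  have hS : Poly (fun a => ∑ P' ∈ range (2 * (A a).length),
      if P' < P a then MM (A a) (y a) P' (2 * (A a).length - 1 - R a) else 0) := by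
    refine JP_sum (g := fun a P' =>
      if P' < P a then MM (A a) (y a) P' (2 * (A a).length - 1 - R a) else 0) hm ?_
    exact Poly.ite (p := fun x : α × ℕ => x.2 < P x.1) (Poly.decide_lt h2 (hP.comp h1))
      (JP_MM (hA.comp h1) (hy.toPoly.comp h1) h2 (hQ.comp h1)) (NPC.Poly.const 0)
  refine NPC.Poly.map (F := fun a c => XX (y a) (2 * (A a).length - 1 - R a + 1) - 1 -
    (∑ P' ∈ range (2 * (A a).length), if P' < P a then
      MM (A a) (y a) P' (2 * (A a).length - 1 - R a) else 0) - c)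
    (JP_MM_u hA hy hP hQ).range ?_
  exact Poly.sub (Poly.sub (Poly.sub ((JP_XX hy.toPoly (Poly.succ hQ)).comp h1)
    (NPC.Poly.const 1)) (hS.comp h1)) h2

theorem WW_p {α : Type} [TEnc α] {A : α → LL} {y : α → ℕ} (hA : Poly A) (hy : UPoly y) :
    Poly (fun a => WW (A a) (y a)) := by
  have h1 : Poly (fun x : α × ℕ => x.1) := Poly.fst Poly.id
  have hm : UPoly (fun a => 2 * (A a).length) := UPoly.mul (UPoly.const 2) (UPoly.length hA)
  have h : Poly (fun a => (List.range (2 * (A a).length)).flatMap fun P =>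
      (List.range (2 * (A a).length)).flatMap fun R => JP_f (A a) (y a) P R) := by
    refine Poly.flatMap (F := fun a P => (List.range (2 * (A a).length)).flatMap fun R =>
      JP_f (A a) (y a) P R) hm.range ?_
    refine Poly.flatMap (F := fun (x : α × ℕ) R => JP_f (A x.1) (y x.1) x.2 R)
      (hm.comp h1).range ?_
    have h11 : Poly (fun x : (α × ℕ) × ℕ => x.1.1) := Poly.fst (Poly.fst Poly.id)
    exact JP_f_p (hA.comp h11) (hy.comp h11) (Poly.snd (Poly.fst Poly.id)) (Poly.snd Poly.id)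
  exact h.congr fun a => (JP_WW _ _).symm

theorem KB_u {α : Type} [TEnc α] {A : α → LL} (hA : Poly A) : UPoly (fun a => KB (A a)) := by
  have hl : UPoly (fun a => (A a).length) := UPoly.length hA
  have hm : UPoly (fun a => 2 * (A a).length) := UPoly.mul (UPoly.const 2) hl
  exact UPoly.mul hm (UPoly.mul hm (UPoly.mul hl hl))

end

end Pool.Agent.TH925.BR
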