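import Pool.Agent.TH925.BR.Glue
import Pool.Agent.H618R2.Skew.T4b
import Pool.Agent.H618R2.Skew.T7

/-!
# Counting the permutations below a permutation in the Bruhat order is `#P`-complete
-/

namespace Pool.Agent.TH925.BR

open Finset Pool.Agent.H549R2.Convex Pool.Agent.H618R2.Skew Pool.Agent.NPC Pool.Agent.NPC.Cnt
open Pool.Agent.NPC.H618Skew
open Pool.Agent.NPC.H549Convex (LL sqB)

/-- test of the diagonal -/
def dgB (A : LL) : Bool := (List.range A.length).all fun i => ent A i i

/-- test for square matrices with ones on the diagonal -/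
def okB (A : LL) : Bool := sqB A && dgB A

/-- bound for the degree -/
def dd (A : LL) : ℕ := 2 * A.length * (2 * A.length * KB A)

/-- product of the factorials of the block sizes -/
def FB (A : LL) (y : ℕ) : ℕ :=
  ((List.range (2 * A.length)).map fun q => (y - q % 2).factorial).prod

theorem list_prod_range (n : ℕ) (f : ℕ → ℕ) :
    ((List.range n).map f).prod = ∏ q : Fin n, f q.val := by
  induction n with
  | zero => simp
  | succ n ih =>
    rw [List.range_succ, List.map_append, List.prod_append, ih, Fin.prod_univ_castSucc]
    simp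

theorem list_sum_range (n : ℕ) (f : ℕ → ℕ) : ((List.range n).map f).sum = ∑ t ∈ range n, f t := by
  induction n with
  | zero => simp
  | succ n ih =>
    rw [List.range_succ, List.map_append, List.sum_append, ih, Finset.sum_range_succ]
    simp

theorem TT_eq (A : LL) (y : ℕ) : TT A y = below (WW A y) / FB A y := by
  rw [TT, FB, list_prod_range]

/-- one side of the extrapolation; `f t` is the answer to query number `t` -/
def exS (A : LL) (b : ℕ) (f : ℕ → ℕ) : ℕ :=
  ((List.range (dd A + 2)).map fun t =>
    bif decide (t % 2 = b) && !decide (t = 0) then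
      (dd A + 1).choose (min t (dd A + 1)) * (f t / FB A (1 + min t (dd A + 1) * KB A))
      else 0).sum

/-- the permanent from the answers -/
def exV (A : LL) (f : ℕ → ℕ) : ℕ := bif okB A then exS A 1 f - exS A 0 f else 0

theorem exS_congr (A : LL) (b : ℕ) (f g : ℕ → ℕ)
    (h : ∀ t, t ≠ 0 → t < dd A + 2 → f t = g t) : exS A b f = exS A b g := by
  rw [exS, exS, list_sum_range, list_sum_range]
  refine sum_congr rfl fun t ht => ?_
  rw [mem_range] at ht
  by_cases h0 : t = 0
  · subst h0
    simp
  · rw [h t h0 ht]

theorem dgB_iff (A : LL) : dgB A = true ↔ ∀ i < A.length, ent A i i = true := by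
  rw [dgB, List.all_eq_true]
  simp only [List.mem_range]

/-- **Correctness of the extrapolation.** -/
theorem exV_eq (A : LL) (hst : Staircase A) :
    exV A (fun t => below (WW A (1 + t * KB A))) = F A := by
  rw [exV]
  by_cases hok : okB A = true
  · rw [hok, cond_true]
    rw [okB, Bool.and_eq_true, dgB_iff, sqB_iff] at hok
    rw [F_eq_extra A hok.1 hst hok.2 (dd A) le_rfl, exS, exS, list_sum_range, list_sum_range]
    congr 1
    · refine sum_congr rfl fun t ht => ?_
      rw [mem_range] at ht
      rw [TT_eq, Nat.min_eq_left (by omega)]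
      by_cases h : t % 2 = 1
      · rw [if_pos h, decide_eq_true h, decide_eq_false (by omega)]
        simp
      · rw [if_neg h, decide_eq_false h]
        simp
    · refine sum_congr rfl fun t ht => ?_
      rw [mem_range] at ht
      rw [TT_eq, Nat.min_eq_left (by omega)]
      by_cases h : t % 2 = 0
      · by_cases h0 : t = 0
        · rw [if_neg (fun h' => h'.2 h0), decide_eq_true h0]
          simp
        · rw [if_pos ⟨h, h0⟩, decide_eq_true h, decide_eq_false h0]
          simp
      · rw [if_neg (fun h' => h h'.1), decide_eq_false h]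
        simp
  · rw [Bool.not_eq_true] at hok
    rw [hok, cond_false]
    by_contra hF
    have hF' : F A ≠ 0 := fun h => hF h.symm
    have hsq : ∀ r ∈ A, r.length = A.length := by
      by_contra h
      exact hF' (by rw [F, if_neg h])
    have h1 : okB A = true := by
      rw [okB, Bool.and_eq_true, dgB_iff, sqB_iff]
      exact ⟨hsq, fun i hi => diag_of_F A hst hF' i hi⟩
    rw [h1] at hok
    exact absurd hok (by simp)

/-- common bound for the number of values of `t` -/
def UU (φ : CNF ℕ) : ℕ := ((qsF φ).flatMap fun A => List.range (dd A + 2)).length + 1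

theorem le_UU (φ : CNF ℕ) (A : LL) (hA : A ∈ qsF φ) : dd A + 2 ≤ UU φ := by
  rw [UU, List.length_flatMap]
  refine le_trans (le_of_eq ?_) (le_trans (List.single_le_sum (fun _ _ => Nat.zero_le _) _
    (List.mem_map_of_mem hA)) (Nat.le_succ _))
  rw [List.length_range]

/-- the matrix of query number `i` -/
def lsA (φ : CNF ℕ) (i : ℕ) : LL := (qsF φ).getD (i / UU φ) []

/-- the queries -/
def qsB (φ : CNF ℕ) : List (List ℕ) :=
  (List.range ((qsF φ).length * UU φ)).map
    fun i => WW (lsA φ i) (1 + i % UU φ * KB (lsA φ i))

/-- the permanents from the answers -/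
def ansB (p : CNF ℕ × List ℕ) : List ℕ :=
  (List.range (qsF p.1).length).map
    fun i => exV ((qsF p.1).getD i []) (fun t => p.2.getD (i * UU p.1 + t) 0)

/-- the final computation -/
def postB (p : CNF ℕ × List ℕ) : ℕ := psF (p.1, ansB p)

theorem WW_ofFn (A : LL) (hsq : ∀ r ∈ A, r.length = A.length) (y : ℕ) (hy : KB A + 1 ≤ y) :
    ∃ (n : ℕ) (w : Equiv.Perm (Fin n)), WW A y = List.ofFn (fun k => (w k).val) := by
  have hrow : ∀ Q : ℕ, ∑ R ∈ range (2 * A.length), DM A Q R ≤ y - Q % 2 := by
    intro Q
    have h4 := row_le A Q
    have h3 := Nat.mod_lt Q (show 0 < 2 by norm_num)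
    omega
  obtain ⟨w, hw, _⟩ := wl_spec (2 * A.length) (MM A y) (XX y) (XX_zero y)
    (fun P hP => by rw [XX_succ y P (by omega), MM_row A y P hP (hrow P)])
    (fun Q hQ => by rw [XX_succ y Q (by omega), MM_col A y Q hQ hsq (hrow Q)])
  exact ⟨_, w, hw⟩

/-- **Correctness of the reduction.** -/
theorem ansB_correct (φ : CNF ℕ) (g : List ℕ → ℕ)
    (hg : ∀ (n : ℕ) (w : Equiv.Perm (Fin n)), g (List.ofFn fun k => (w k).val) =
      below (List.ofFn fun k => (w k).val)) :
    ansB (φ, (qsB φ).map g) =
      (qsF φ).map (fun A => exV A fun t => below (WW A (1 + t * KB A))) := by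
  apply List.ext_getElem
  · rw [ansB, List.length_map, List.length_map, List.length_range]
  · intro i h1 h2
    rw [List.length_map] at h2
    simp only [ansB, List.getElem_map, List.getElem_range]
    rw [List.getD_eq_getElem _ _ h2]
    have hmem : (qsF φ)[i] ∈ qsF φ := List.getElem_mem h2
    have hU := le_UU φ _ hmem
    set A := (qsF φ)[i] with hA
    rw [exV, exV]
    by_cases hok : okB A = true
    · rw [hok, cond_true, cond_true]
      have hsq : ∀ r ∈ A, r.length = A.length := by
        rw [okB, Bool.and_eq_true] at hok
        exact (sqB_iff A).1 hok.1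
      have key : ∀ t, t ≠ 0 → t < dd A + 2 →
          ((qsB φ).map g).getD (i * UU φ + t) 0 = below (WW A (1 + t * KB A)) := by
        intro t h0 ht
        have hidx : i * UU φ + t < (qsF φ).length * UU φ := by
          have := Nat.mul_le_mul_right (UU φ) (Nat.succ_le_of_lt h2)
          have e : (i + 1) * UU φ = i * UU φ + UU φ := by ring
          have e' : Nat.succ i * UU φ = (i + 1) * UU φ := rfl
          omega
        have hlq : i * UU φ + t < ((qsB φ).map g).length := by
          simp only [qsB, List.length_map, List.length_range]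
          exact hidx
        rw [List.getD_eq_getElem _ _ hlq, List.getElem_map]
        have e1 : (i * UU φ + t) / UU φ = i := by
          rw [mul_comm, Nat.mul_add_div (by omega), Nat.div_eq_of_lt (by omega), add_zero]
        have e2 : (i * UU φ + t) % UU φ = t := by
          rw [mul_comm, Nat.mul_add_mod, Nat.mod_eq_of_lt (by omega)]
        have e3 : lsA φ (i * UU φ + t) = A := by
          rw [lsA, e1, List.getD_eq_getElem _ _ h2]
        have h3 : (qsB φ)[i * UU φ + t]'(by simpa using hlq) = WW A (1 + t * KB A) := by
          simp only [qsB, List.getElem_map, List.getElem_range]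
          rw [e2, e3]
        rw [h3]
        obtain ⟨n, w, hw⟩ := WW_ofFn A hsq (1 + t * KB A) (by
          have := Nat.mul_le_mul_right (KB A) (Nat.one_le_iff_ne_zero.2 h0)
          omega)
        rw [hw, hg]
      rw [exS_congr A 1 _ _ key, exS_congr A 0 _ _ key]
    · rw [Bool.not_eq_true] at hok
      rw [hok, cond_false, cond_false]

theorem postB_correct (φ : CNF ℕ) (g : List ℕ → ℕ)
    (hg : ∀ (n : ℕ) (w : Equiv.Perm (Fin n)), g (List.ofFn fun k => (w k).val) =
      below (List.ofFn fun k => (w k).val)) :
    postB (φ, (qsB φ).map g) = satCount φ := by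
  rw [postB, ansB_correct φ g hg]
  exact psF_correct reduction HS_staircase φ _ exV_eq

end Pool.Agent.TH925.BR
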