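import Pool.Agent.TH925.BR.Red
import Pool.Agent.TH925.BR.JP
import Pool.Agent.TH925.BR.JM
import Pool.Agent.TH925.SI.Red

/-!
# Counting the permutations below a permutation in the Bruhat order: polynomial time
-/

namespace Pool.Agent.NPC.TH925BR

open Pool.Agent.H549R2.Convex Pool.Agent.H549R2.PM Pool.Agent.NPC.Cnt Pool.Agent.H618R2.Skew
open Pool.Agent.NPC.H549Convex (LL poly_prod upoly_fact upoly_choose ent_poly fp_of_poly sqB
  sqB_poly)
open Pool.Agent.NPC.H549PM Pool.Agent.TH925.BR Pool.Agent.NPC.H618Skew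

theorem dgB_p : Poly dgB :=
  Poly.all (p := fun (A : LL) i => ent A i i) (Poly.range_length Poly.id)
    (Poly.getD (Poly.getD (Poly.fst Poly.id) (Poly.snd Poly.id) (Poly.const []))
      (Poly.snd Poly.id) (Poly.const false))

theorem okB_p : Poly okB := Poly.and sqB_poly dgB_p

section General

variable {α : Type} [TEnc α]

theorem len_u {A : α → LL} (hA : Poly A) : UPoly (fun a => 2 * (A a).length) :=
  UPoly.mul (UPoly.const 2) (UPoly.length hA)

theorem dd_u {A : α → LL} (hA : Poly A) : UPoly (fun a => dd (A a)) :=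
  UPoly.mul (len_u hA) (UPoly.mul (len_u hA) (KB_u hA))

theorem FB_p {A : α → LL} {y : α → ℕ} (hA : Poly A) (hy : UPoly y) :
    Poly (fun a => FB (A a) (y a)) := by
  refine poly_prod ?_
  refine Poly.map (F := fun a q => (y a - q % 2).factorial) (len_u hA).range
    (upoly_fact ?_)
  exact UPoly.of_le (Poly.sub (hy.toPoly.comp (Poly.fst Poly.id)) (Poly.mod (Poly.snd Poly.id)
    (Poly.const 2))) (hy.comp (Poly.fst Poly.id)) (fun p => Nat.sub_le _ _)

theorem exS_p {A : α → LL} {f : α → ℕ → ℕ} (b : ℕ) (hA : Poly A)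
    (hf : Poly (fun p : α × ℕ => f p.1 p.2)) : Poly (fun a => exS (A a) b (f a)) := by
  have hA' : Poly (fun p : α × ℕ => A p.1) := hA.comp (Poly.fst Poly.id)
  have hd1 : UPoly (fun p : α × ℕ => dd (A p.1) + 1) := UPoly.add (dd_u hA') (UPoly.const 1)
  have ht : UPoly (fun p : α × ℕ => min p.2 (dd (A p.1) + 1)) := upoly_min (Poly.snd Poly.id) hd1
  have hy : UPoly (fun p : α × ℕ => 1 + min p.2 (dd (A p.1) + 1) * KB (A p.1)) :=
    UPoly.add (UPoly.const 1) (UPoly.mul ht (KB_u hA'))
  have h1 : Poly (fun p : α × ℕ => (dd (A p.1) + 1).choose (min p.2 (dd (A p.1) + 1))) :=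
    upoly_choose hd1 ht (fun p => min_le_right _ _)
  have h2 : Poly (fun p : α × ℕ => f p.1 p.2 /
      FB (A p.1) (1 + min p.2 (dd (A p.1) + 1) * KB (A p.1))) := Poly.div hf (FB_p hA' hy)
  have h3 : Poly (fun p : α × ℕ => decide (p.2 % 2 = b) && !decide (p.2 = 0)) :=
    Poly.and (Poly.decide_eq (Poly.mod (Poly.snd Poly.id) (Poly.const 2)) (Poly.const b))
      (Poly.not (Poly.decide_eq (Poly.snd Poly.id) (Poly.const 0)))
  exact Poly.sum (Poly.map (F := fun a t => bif decide (t % 2 = b) && !decide (t = 0) then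
      (dd (A a) + 1).choose (min t (dd (A a) + 1)) *
        (f a t / FB (A a) (1 + min t (dd (A a) + 1) * KB (A a))) else 0)
    (UPoly.add (dd_u hA) (UPoly.const 2)).range
    (Poly.cond h3 (Poly.mul h1 h2) (Poly.const 0)))

theorem exV_p {A : α → LL} {f : α → ℕ → ℕ} (hA : Poly A)
    (hf : Poly (fun p : α × ℕ => f p.1 p.2)) : Poly (fun a => exV (A a) (f a)) :=
  Poly.cond (okB_p.comp hA) (Poly.sub (exS_p 1 hA hf) (exS_p 0 hA hf)) (Poly.const 0)

end General

section Reduction

theorem UU_u : UPoly UU :=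
  UPoly.add (UPoly.length (Poly.flatMap (F := fun (_ : CNF ℕ) (A : LL) => List.range (dd A + 2))
    qsF_p (UPoly.add (dd_u (Poly.snd Poly.id)) (UPoly.const 2)).range)) (UPoly.const 1)

theorem lsA_p : Poly (fun p : CNF ℕ × ℕ => lsA p.1 p.2) :=
  Poly.getD (qsF_p.comp (Poly.fst Poly.id))
    (Poly.div (Poly.snd Poly.id) (UU_u.toPoly.comp (Poly.fst Poly.id))) (Poly.const [])

theorem qsB_p : Poly qsB := by
  have hN : UPoly (fun φ : CNF ℕ => (qsF φ).length * UU φ) :=
    UPoly.mul (UPoly.length (l := qsF) qsF_p) UU_u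
  refine Poly.map (F := fun (φ : CNF ℕ) i =>
    WW (lsA φ i) (1 + i % UU φ * KB (lsA φ i))) hN.range ?_
  have hU : UPoly (fun p : CNF ℕ × ℕ => UU p.1) := UU_u.comp (Poly.fst Poly.id)
  have hm : UPoly (fun p : CNF ℕ × ℕ => p.2 % UU p.1) :=
    UPoly.of_le (Poly.mod (Poly.snd Poly.id) hU.toPoly) hU
      (fun p => (Nat.mod_lt _ (Nat.succ_pos _)).le)
  exact WW_p lsA_p (UPoly.add (UPoly.const 1) (UPoly.mul hm (KB_u lsA_p)))

theorem ansB_p : Poly ansB := by
  have hr : Poly (fun p : CNF ℕ × List ℕ => List.range (qsF p.1).length) :=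
    Poly.range_length (qsF_p.comp (Poly.fst Poly.id))
  refine Poly.map (F := fun (p : CNF ℕ × List ℕ) i =>
    exV ((qsF p.1).getD i []) (fun t => p.2.getD (i * UU p.1 + t) 0)) hr ?_
  have hA : Poly (fun p : (CNF ℕ × List ℕ) × ℕ => (qsF p.1.1).getD p.2 []) :=
    Poly.getD (qsF_p.comp (Poly.fst (Poly.fst Poly.id))) (Poly.snd Poly.id) (Poly.const [])
  refine exV_p (f := fun (p : (CNF ℕ × List ℕ) × ℕ) t => p.1.2.getD (p.2 * UU p.1.1 + t) 0) hA ?_
  have hU : Poly (fun z : ((CNF ℕ × List ℕ) × ℕ) × ℕ => UU z.1.1.1) :=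
    UU_u.toPoly.comp (Poly.fst (Poly.fst (Poly.fst Poly.id)))
  exact Poly.getD (Poly.snd (Poly.fst (Poly.fst Poly.id)))
    (Poly.add (Poly.mul (Poly.snd (Poly.fst Poly.id)) hU) (Poly.snd Poly.id)) (Poly.const 0)

theorem postB_p : Poly postB :=
  psF_p.comp (f := fun p : CNF ℕ × List ℕ => (p.1, ansB p)) (Poly.pair (Poly.fst Poly.id) ansB_p)

end Reduction

section Main

theorem bruhat_iff' : ∀ (n : ℕ) (u v : Equiv.Perm (Fin n)),
    Bruhat u v ↔ ∀ p q : ℕ, rk u p q ≤ rk v p q := fun _ u v => bruhat_iff u v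

theorem sharpP_br : SharpP (strFn below) := sharpP_below bruhat_iff'

theorem hard_br : SharpPHard (strFn below) := by
  refine sharpPHard_of_satCount qsB postB qsB_p postB_p
    (fun φ => (postB_correct φ below (fun _ _ => rfl)).symm)
    (Polynomial.X * Polynomial.X + Polynomial.C 1) (fun l => ?_)
  have h1 := below_size l
  have h2 := length_lt_sz l
  simp only [Polynomial.eval_add, Polynomial.eval_mul, Polynomial.eval_X, Polynomial.eval_C]
  have := Nat.mul_le_mul h2.le h2.le
  omega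

theorem fp_iff_br : (∀ f : List Bool → ℕ, SharpP f → FP f) ↔
    ∃ g : List Bool → List Bool, PolyTime g ∧
      ∀ (n : ℕ) (w : Equiv.Perm (Fin n)), g (bits (List.ofFn fun k => (w k).val)) =
        (Nat.card {v : Equiv.Perm (Fin n) // Bruhat v w}).bits := by
  constructor
  · intro h
    refine ⟨_, h _ sharpP_br, fun n w => ?_⟩
    rw [strFn_bits, below_eq _ w rfl]
  · rintro ⟨g, hg, hgF⟩ f hf
    have hid : PC (bits : List ℕ → List Bool) (id : List Bool → List Bool)
        (fun l => bits l) :=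
      (PC.id : PC (bits : List ℕ → List Bool) bits (fun l => l))
    have h1 : PC (bits : List ℕ → List Bool) (id : List Bool → List Bool)
        (fun l => g (bits l)) :=
      PC.comp (Pool.Agent.H642R2.TMSim.polyTime_toPC hg) hid
    have h2 : PC (bits : List ℕ → List Bool) (bits : List Bool → List Bool)
        (fun l => g (bits l)) :=
      PC.comp (g := fun x : List Bool => x) (f := fun l : List ℕ => g (bits l)) PC.ofBits h1
    have h3 : Poly (fun l : List ℕ => valB (g (bits l))) := Poly.valBits h2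
    set G : List ℕ → ℕ := fun l => valB (g (bits l)) with hG
    have hGF : ∀ (n : ℕ) (w : Equiv.Perm (Fin n)), G (List.ofFn fun k => (w k).val) =
        below (List.ofFn fun k => (w k).val) := by
      intro n w
      rw [hG]
      simp only
      rw [hgF n w, valB_bits, below_eq _ w rfl]
    have h4 : Poly (fun φ : CNF ℕ => postB (φ, (qsB φ).map G)) := by
      have h5 : Poly (fun φ : CNF ℕ => (qsB φ).map G) :=
        Poly.map (F := fun (_ : CNF ℕ) B => G B) qsB_p (h3.comp (Poly.snd Poly.id))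
      exact postB_p.comp (f := fun φ : CNF ℕ => (φ, (qsB φ).map G)) (Poly.pair Poly.id h5)
    have h5 : Poly (fun φ : CNF ℕ => satCount φ) := h4.congr fun φ => postB_correct φ G hGF
    obtain ⟨V, p, hV, hf⟩ := hf
    obtain ⟨G', hG', hGf⟩ := parsimonious hV p
    have h6 : Poly G' := PC.comp hG' pc_raw
    have h7 : Poly (fun x : List Bool => satCount (G' x)) := h5.comp (f := G') h6
    have h8 : Poly f := h7.congr fun x => by rw [hf x, ← hGf x]
    exact fp_of_poly h8

end Main

end Pool.Agent.NPC.TH925BR
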